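import Pool.Agent.NGN.Defs
import Pool.Agent.Sq4.Topo1

/-!
# There are admissible functions on every polygon
-/

set_option autoImplicit false

noncomputable section

namespace Pool.Agent.NGN

open MeasureTheory Pool.Agent.Stk

private theorem adm_cont (P Q : ℂ) {f : ℂ → ℝ} (hf : Continuous f) :
    Continuous fun t : ℝ => f (P + (t : ℂ) * (Q - P)) :=
  hf.comp (by fun_prop)

private theorem adm_segInt_sub (P Q : ℂ) {f : ℂ → ℝ} (hf : Continuous f) (c : ℝ) :
    segInt P Q (fun z => f z - c) = segInt P Q f - c * segInt P Q (fun _ => 1) := by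
  unfold segInt
  rw [intervalIntegral.integral_sub ((adm_cont P Q hf).intervalIntegrable _ _)
    (by simp)]
  simp
  ring

private theorem adm_segInt_one (P Q : ℂ) : segInt P Q (fun _ => 1) = dist P Q := by
  unfold segInt
  simp

/-- If the integral of the square over a segment vanishes, then the function vanishes at its
end points. -/
private theorem adm_end {P Q : ℂ} (hne : P ≠ Q) {f : ℂ → ℝ} (hf : Continuous f)
    (h : segInt P Q (fun z => f z ^ 2) = 0) : f P = 0 ∧ f Q = 0 := by
  unfold segInt at h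
  have hd : dist P Q ≠ 0 := (dist_pos.2 hne).ne'
  have h1 : ∫ t in (0 : ℝ)..1, (f (P + (t : ℂ) * (Q - P))) ^ 2 = 0 := by
    rcases mul_eq_zero.1 h with h | h
    · exact absurd h hd
    · exact h
  have hc : Continuous fun t : ℝ => (f (P + (t : ℂ) * (Q - P))) ^ 2 := (adm_cont P Q hf).pow 2
  have key : ∀ t ∈ Set.Icc (0 : ℝ) 1, (f (P + (t : ℂ) * (Q - P))) ^ 2 = 0 := by
    intro t ht
    by_contra hne0
    have hpos : 0 < ∫ t in (0 : ℝ)..1, (f (P + (t : ℂ) * (Q - P))) ^ 2 := by
      apply intervalIntegral.integral_pos zero_lt_one hc.continuousOn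
        (fun x _ => sq_nonneg _)
      exact ⟨t, ht, lt_of_le_of_ne (sq_nonneg _) (Ne.symm hne0)⟩
    exact hpos.ne' h1
  constructor
  · have := key 0 ⟨le_rfl, zero_le_one⟩
    simpa using this
  · have := key 1 ⟨zero_le_one, le_rfl⟩
    simpa using this

section

variable {n : ℕ} [NeZero n] {Ω : Set ℂ} {P : ZMod n → ℂ}

omit [NeZero n] in
private theorem adm_ne (h : PolyN Ω P) (i : ZMod n) : P i ≠ P (i + 1) := by
  intro h0
  apply h.angle i
  rw [← h0, Set.pair_eq_singleton]
  exact collinear_pair ℝ _ _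

private theorem adm_seg_nonneg (A B : ℂ) (f : ℂ → ℝ) : 0 ≤ segInt A B (fun z => f z ^ 2) := by
  unfold segInt
  exact mul_nonneg dist_nonneg (intervalIntegral.integral_nonneg zero_le_one fun t _ => sq_nonneg _)

private theorem adm_zero (h : PolyN Ω P) {f : ℂ → ℝ} (hf : Continuous f)
    (h0 : bdN P (fun z => f z ^ 2) = 0) (i : ZMod n) : f (P i) = 0 := by
  unfold bdN at h0
  have h1 := (Finset.sum_eq_zero_iff_of_nonneg
    (fun j (_ : j ∈ Finset.univ) => adm_seg_nonneg (P j) (P (j + 1)) f)).1 h0 i (Finset.mem_univ _)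
  exact (adm_end (adm_ne h i) hf h1).1

private theorem adm_per (h : PolyN Ω P) : 0 < perN P := by
  unfold perN bdN
  apply Finset.sum_pos
  · intro i _
    rw [adm_segInt_one]
    exact dist_pos.2 (adm_ne h i)
  · exact ⟨0, Finset.mem_univ _⟩

private theorem adm_mean (h : PolyN Ω P) {f : ℂ → ℝ} (hf : Continuous f) :
    bdN P (fun z => f z - bdN P f / perN P) = 0 := by
  have hp := adm_per h
  have h1 : ∀ c : ℝ, bdN P (fun z => f z - c) = bdN P f - c * perN P := by
    intro c
    unfold bdN perN bdN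
    rw [Finset.mul_sum, ← Finset.sum_sub_distrib]
    exact Finset.sum_congr rfl fun i _ => adm_segInt_sub _ _ hf c
  rw [h1]
  field_simp
  ring

/-- There are admissible functions on every polygon. -/
theorem exists_adm (h : PolyN Ω P) (k : WithTop ℕ∞) :
    ∃ u : ℂ → ℝ, ContDiff ℝ k u ∧ bdN P u = 0 ∧ bdN P (fun z => u z ^ 2) ≠ 0 := by
  have hre : ContDiff ℝ k (fun z : ℂ => z.re) := Complex.reCLM.contDiff
  have him : ContDiff ℝ k (fun z : ℂ => z.im) := Complex.imCLM.contDiff
  by_contra hcon
  push Not at hcon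
  have a1 := hcon _ (hre.sub (contDiff_const (c := bdN P (fun z => z.re) / perN P)))
    (adm_mean h Complex.continuous_re)
  have a2 := hcon _ (him.sub (contDiff_const (c := bdN P (fun z => z.im) / perN P)))
    (adm_mean h Complex.continuous_im)
  have b1 : ∀ i, (P i).re - bdN P (fun z => z.re) / perN P = 0 :=
    adm_zero h (Complex.continuous_re.sub continuous_const) a1
  have b2 : ∀ i, (P i).im - bdN P (fun z => z.im) / perN P = 0 :=
    adm_zero h (Complex.continuous_im.sub continuous_const) a2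
  apply adm_ne h 0
  apply Complex.ext
  · exact (sub_eq_zero.1 (b1 0)).trans (sub_eq_zero.1 (b1 (0 + 1))).symm
  · exact (sub_eq_zero.1 (b2 0)).trans (sub_eq_zero.1 (b2 (0 + 1))).symm

end

end Pool.Agent.NGN
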