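import Pool.Agent.NGN.Moll
import Pool.Agent.Stk.Defs

/-!
# Lipschitz test functions

MP_b1ddb4_an, project NGN, part C.  The infimum of the Rayleigh quotient over the functions of class
`C^k` is at most the Rayleigh quotient of every Lipschitz function.
-/

set_option autoImplicit false

noncomputable section

namespace Pool.Agent.NGN

open MeasureTheory Filter Topology Metric Pool.Agent.Stk
open scoped NNReal

variable {ι : Type} [Fintype ι]

/-- Sum of the arc length integrals over the segments `[a i, b i]`. -/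
def bdF (a b : ι → ℂ) (f : ℂ → ℝ) : ℝ := ∑ i, segInt (a i) (b i) f

/-- Infimum of the Rayleigh quotient over the functions of class `C^k`. -/
def sigF (k : WithTop ℕ∞) (Ω : Set ℂ) (a b : ι → ℂ) : ℝ :=
  sInf {x : ℝ | ∃ u : ℂ → ℝ, ContDiff ℝ k u ∧ bdF a b u = 0 ∧
    bdF a b (fun z => u z ^ 2) ≠ 0 ∧
      x = (∫ z in Ω, ((fderiv ℝ u z 1) ^ 2 + (fderiv ℝ u z Complex.I) ^ 2))
        / bdF a b (fun z => u z ^ 2)}

theorem segInt_integrable {f : ℂ → ℝ} (hf : Continuous f) (P Q : ℂ) :
    IntervalIntegrable (fun t : ℝ => f (P + (t : ℂ) * (Q - P))) volume 0 1 :=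
  (hf.comp (by fun_prop)).intervalIntegrable _ _

theorem segInt_add {f g : ℂ → ℝ} (hf : Continuous f) (hg : Continuous g) (P Q : ℂ) :
    segInt P Q (fun z => f z + g z) = segInt P Q f + segInt P Q g := by
  unfold segInt
  rw [intervalIntegral.integral_add (segInt_integrable hf P Q) (segInt_integrable hg P Q)]
  ring

theorem segInt_const_mul (c : ℝ) (f : ℂ → ℝ) (P Q : ℂ) :
    segInt P Q (fun z => c * f z) = c * segInt P Q f := by
  unfold segInt
  rw [intervalIntegral.integral_const_mul]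
  ring

theorem segInt_one (P Q : ℂ) : segInt P Q (fun _ => 1) = dist P Q := by
  unfold segInt; simp

theorem segInt_nonneg {f : ℂ → ℝ} (hf : ∀ z, 0 ≤ f z) (P Q : ℂ) : 0 ≤ segInt P Q f := by
  unfold segInt
  apply mul_nonneg dist_nonneg
  exact intervalIntegral.integral_nonneg (by norm_num) fun t _ => hf _

theorem bdF_add {a b : ι → ℂ} {f g : ℂ → ℝ} (hf : Continuous f) (hg : Continuous g) :
    bdF a b (fun z => f z + g z) = bdF a b f + bdF a b g := by
  unfold bdF
  rw [← Finset.sum_add_distrib]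
  exact Finset.sum_congr rfl fun i _ => segInt_add hf hg _ _

theorem bdF_const_mul {a b : ι → ℂ} (c : ℝ) (f : ℂ → ℝ) :
    bdF a b (fun z => c * f z) = c * bdF a b f := by
  unfold bdF
  rw [Finset.mul_sum]
  exact Finset.sum_congr rfl fun i _ => segInt_const_mul c f _ _

theorem bdF_nonneg {a b : ι → ℂ} {f : ℂ → ℝ} (hf : ∀ z, 0 ≤ f z) : 0 ≤ bdF a b f :=
  Finset.sum_nonneg fun i _ => segInt_nonneg hf _ _

theorem bdF_sq_sub {a b : ι → ℂ} {f : ℂ → ℝ} (hf : Continuous f) (c : ℝ) :
    bdF a b (fun z => (f z - c) ^ 2) =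
      bdF a b (fun z => f z ^ 2) - 2 * c * bdF a b f + c ^ 2 * bdF a b (fun _ => 1) := by
  have h1 : (fun z => (f z - c) ^ 2) =
      fun z => (f z ^ 2 + (-2 * c) * f z) + c ^ 2 * (1 : ℝ) := by
    funext z; ring
  rw [h1, bdF_add (f := fun z => f z ^ 2 + (-2 * c) * f z) (g := fun _ => c ^ 2 * (1 : ℝ))
    (by fun_prop) (by fun_prop), bdF_add (f := fun z => f z ^ 2) (g := fun z => (-2 * c) * f z)
    (by fun_prop) (by fun_prop), bdF_const_mul, bdF_const_mul]
  ring

theorem bdF_sub_const {a b : ι → ℂ} {f : ℂ → ℝ} (hf : Continuous f) (c : ℝ) :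
    bdF a b (fun z => f z - c) = bdF a b f - c * bdF a b (fun _ => 1) := by
  have h1 : (fun z => f z - c) = fun z => f z + (-c) * (1 : ℝ) := by
    funext z; ring
  rw [h1, bdF_add hf (by fun_prop), bdF_const_mul]
  ring

theorem segInt_tendsto {f : ℕ → ℂ → ℝ} {g : ℂ → ℝ} {r : ℕ → ℝ} (hf : ∀ j, Continuous (f j))
    (hg : Continuous g) (hr : Tendsto r atTop (𝓝 0)) (h : ∀ j z, dist (f j z) (g z) ≤ r j)
    (P Q : ℂ) : Tendsto (fun j => segInt P Q (f j)) atTop (𝓝 (segInt P Q g)) := by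
  unfold segInt
  apply Tendsto.const_mul
  rw [tendsto_iff_dist_tendsto_zero]
  refine squeeze_zero (fun _ => dist_nonneg) (fun j => ?_) hr
  rw [Real.dist_eq, ← intervalIntegral.integral_sub (segInt_integrable (hf j) P Q)
    (segInt_integrable hg P Q)]
  have := intervalIntegral.norm_integral_le_of_norm_le_const (a := (0 : ℝ)) (b := 1) (C := r j)
    (f := fun t : ℝ => f j (P + (t : ℂ) * (Q - P)) - g (P + (t : ℂ) * (Q - P)))
    (fun t _ => by rw [Real.norm_eq_abs, ← Real.dist_eq]; exact h j _)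
  simpa using this

theorem bdF_tendsto {a b : ι → ℂ} {f : ℕ → ℂ → ℝ} {g : ℂ → ℝ} {r : ℕ → ℝ}
    (hf : ∀ j, Continuous (f j)) (hg : Continuous g) (hr : Tendsto r atTop (𝓝 0))
    (h : ∀ j z, dist (f j z) (g z) ≤ r j) :
    Tendsto (fun j => bdF a b (f j)) atTop (𝓝 (bdF a b g)) := by
  unfold bdF
  exact tendsto_finsetSum _ fun i _ => segInt_tendsto hf hg hr h _ _

/-- Pointwise version for the squares: only a bound on the segment is needed. -/
theorem segInt_sq_tendsto {f : ℕ → ℂ → ℝ} {g : ℂ → ℝ} {r : ℕ → ℝ} (hf : ∀ j, Continuous (f j))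
    (hg : Continuous g) (hr : Tendsto r atTop (𝓝 0)) (h : ∀ j z, dist (f j z) (g z) ≤ r j)
    (P Q : ℂ) :
    Tendsto (fun j => segInt P Q (fun z => f j z ^ 2)) atTop
      (𝓝 (segInt P Q (fun z => g z ^ 2))) := by
  have h0 : ∀ j, 0 ≤ r j := fun j => le_trans dist_nonneg (h j 0)
  have hc : Continuous fun t : ℝ => g (P + (t : ℂ) * (Q - P)) := hg.comp (by fun_prop)
  obtain ⟨M, hM⟩ := (isCompact_Icc (a := (0 : ℝ)) (b := 1)).exists_bound_of_continuousOn
    hc.continuousOn
  have hM0 : 0 ≤ M := le_trans (norm_nonneg _) (hM 0 (by simp))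
  unfold segInt
  apply Tendsto.const_mul
  rw [tendsto_iff_dist_tendsto_zero]
  have hlim : Tendsto (fun j => r j * (r j + 2 * M)) atTop (𝓝 0) := by
    have := hr.mul (hr.add_const (2 * M))
    simpa using this
  refine squeeze_zero (fun _ => dist_nonneg) (fun j => ?_) hlim
  have hf2 : Continuous fun z => f j z ^ 2 := (hf j).pow 2
  have hg2 : Continuous fun z => g z ^ 2 := hg.pow 2
  rw [Real.dist_eq, ← intervalIntegral.integral_sub (segInt_integrable hf2 P Q)
    (segInt_integrable hg2 P Q)]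
  have := intervalIntegral.norm_integral_le_of_norm_le_const (a := (0 : ℝ)) (b := 1)
    (C := r j * (r j + 2 * M))
    (f := fun t : ℝ => f j (P + (t : ℂ) * (Q - P)) ^ 2 - g (P + (t : ℂ) * (Q - P)) ^ 2)
    (fun t ht => by
      have ht' : t ∈ Set.Icc (0 : ℝ) 1 := by
        rw [Set.uIoc_of_le (by norm_num)] at ht
        exact ⟨ht.1.le, ht.2⟩
      have hb := hM t ht'
      have hd := h j (P + (t : ℂ) * (Q - P))
      rw [Real.dist_eq] at hd
      rw [Real.norm_eq_abs] at hb ⊢
      rw [sq_sub_sq, abs_mul]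
      have h3 : |f j (P + (t : ℂ) * (Q - P)) + g (P + (t : ℂ) * (Q - P))| ≤ r j + 2 * M := by
        have : f j (P + (t : ℂ) * (Q - P)) + g (P + (t : ℂ) * (Q - P)) =
          (f j (P + (t : ℂ) * (Q - P)) - g (P + (t : ℂ) * (Q - P))) +
            2 * g (P + (t : ℂ) * (Q - P)) := by ring
        rw [this]
        calc _ ≤ |f j (P + (t : ℂ) * (Q - P)) - g (P + (t : ℂ) * (Q - P))| +
            |2 * g (P + (t : ℂ) * (Q - P))| := abs_add_le _ _
          _ ≤ r j + 2 * M := by
            rw [abs_mul, abs_of_pos (by norm_num : (0 : ℝ) < 2)]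
            linarith
      calc |f j (P + (t : ℂ) * (Q - P)) + g (P + (t : ℂ) * (Q - P))| *
          |f j (P + (t : ℂ) * (Q - P)) - g (P + (t : ℂ) * (Q - P))|
          ≤ (r j + 2 * M) * r j := by
            apply mul_le_mul h3 hd (abs_nonneg _)
            linarith [h0 j]
        _ = r j * (r j + 2 * M) := by ring)
  simpa using this

theorem bdF_sq_tendsto {a b : ι → ℂ} {f : ℕ → ℂ → ℝ} {g : ℂ → ℝ} {r : ℕ → ℝ}
    (hf : ∀ j, Continuous (f j)) (hg : Continuous g) (hr : Tendsto r atTop (𝓝 0))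
    (h : ∀ j z, dist (f j z) (g z) ≤ r j) :
    Tendsto (fun j => bdF a b (fun z => f j z ^ 2)) atTop (𝓝 (bdF a b (fun z => g z ^ 2))) := by
  unfold bdF
  exact tendsto_finsetSum _ fun i _ => segInt_sq_tendsto hf hg hr h _ _

theorem bddBelow_ray (k : WithTop ℕ∞) (Ω : Set ℂ) (a b : ι → ℂ) :
    BddBelow {x : ℝ | ∃ u : ℂ → ℝ, ContDiff ℝ k u ∧ bdF a b u = 0 ∧
    bdF a b (fun z => u z ^ 2) ≠ 0 ∧
      x = (∫ z in Ω, ((fderiv ℝ u z 1) ^ 2 + (fderiv ℝ u z Complex.I) ^ 2))
        / bdF a b (fun z => u z ^ 2)} := by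
  refine ⟨0, ?_⟩
  rintro x ⟨u, -, -, -, rfl⟩
  apply div_nonneg
  · exact integral_nonneg fun z => by positivity
  · exact bdF_nonneg fun z => by positivity

theorem sigF_nonneg (k : WithTop ℕ∞) (Ω : Set ℂ) (a b : ι → ℂ) : 0 ≤ sigF k Ω a b := by
  apply Real.sInf_nonneg
  rintro x ⟨u, -, -, -, rfl⟩
  apply div_nonneg
  · exact integral_nonneg fun z => by positivity
  · exact bdF_nonneg fun z => by positivity

theorem sigF_mul_le_smooth {k : WithTop ℕ∞} {Ω : Set ℂ} {a b : ι → ℂ} {u : ℂ → ℝ}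
    (hu : ContDiff ℝ k u) (h0 : bdF a b u = 0) :
    sigF k Ω a b * bdF a b (fun z => u z ^ 2) ≤ ∫ z in Ω, dens u z := by
  have hE : 0 ≤ ∫ z in Ω, dens u z := integral_nonneg fun z => dens_nonneg u z
  have hB : 0 ≤ bdF a b (fun z => u z ^ 2) := bdF_nonneg fun z => by positivity
  rcases hB.eq_or_lt with hB0 | hB0
  · rw [← hB0, mul_zero]; exact hE
  · have : sigF k Ω a b ≤ (∫ z in Ω, dens u z) / bdF a b (fun z => u z ^ 2) :=
      csInf_le (bddBelow_ray k Ω a b) ⟨u, hu, h0, hB0.ne', rfl⟩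
    rwa [le_div_iff₀ hB0] at this

/-- The main statement of this file. -/
theorem sigF_mul_le {v : ℂ → ℝ} {L : ℝ≥0} (hv : LipschitzWith L v) (k : ℕ∞) {Ω : Set ℂ}
    (hΩ : volume Ω ≠ ⊤) {a b : ι → ℂ} (h0 : bdF a b v = 0) :
    sigF k Ω a b * bdF a b (fun z => v z ^ 2) ≤ ∫ z in Ω, dens v z := by
  have hlen : 0 ≤ bdF a b (fun _ => 1) := bdF_nonneg fun _ => by norm_num
  set r : ℕ → ℝ := fun j => L / ((j : ℝ) + 1) with hr
  have hr0 : Tendsto r atTop (𝓝 0) := by
    have := (tendsto_one_div_add_atTop_nhds_zero_nat (𝕜 := ℝ)).const_mul (L : ℝ)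
    simpa [hr, div_eq_mul_inv] using this
  have hmc : ∀ j, Continuous (moll v j) := fun j => (moll_contDiff hv j 0).continuous
  have hB : Tendsto (fun j => bdF a b (moll v j)) atTop (𝓝 0) := by
    rw [← h0]; exact bdF_tendsto hmc hv.continuous hr0 (moll_near hv)
  have hB2 := bdF_sq_tendsto (a := a) (b := b) hmc hv.continuous hr0 (moll_near hv)
  rcases hlen.eq_or_lt with hl | hl
  · -- no boundary
    have h1 : bdF a b (fun z => v z ^ 2) = 0 := by
      have h2 : ∀ i, dist (a i) (b i) = 0 := by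
        intro i
        have h3 : ∑ i, dist (a i) (b i) = 0 := by
          rw [hl]; unfold bdF
          exact Finset.sum_congr rfl fun i _ => (segInt_one _ _).symm
        exact (Finset.sum_eq_zero_iff_of_nonneg fun i _ => dist_nonneg).1 h3 i (Finset.mem_univ i)
      unfold bdF segInt
      exact Finset.sum_eq_zero fun i _ => by rw [h2 i, zero_mul]
    rw [h1, mul_zero]
    exact integral_nonneg fun z => dens_nonneg v z
  · set c : ℕ → ℝ := fun j => bdF a b (moll v j) / bdF a b (fun _ => 1) with hc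
    have hc0 : Tendsto c atTop (𝓝 0) := by
      have := hB.div_const (bdF a b (fun _ => 1))
      simpa [hc] using this
    have key : ∀ j, sigF k Ω a b * (bdF a b (fun z => moll v j z ^ 2)
        - 2 * c j * bdF a b (moll v j) + c j ^ 2 * bdF a b (fun _ => 1)) ≤
          ∫ z in Ω, dens (moll v j) z := by
      intro j
      have h1 : ContDiff ℝ k (fun z => moll v j z - c j) :=
        (moll_contDiff hv j k).sub contDiff_const
      have h2 : bdF a b (fun z => moll v j z - c j) = 0 := by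
        rw [bdF_sub_const (hmc j)]
        simp only [hc]
        field_simp
        ring
      have h3 := sigF_mul_le_smooth (Ω := Ω) h1 h2
      rw [bdF_sq_sub (hmc j)] at h3
      have h4 : dens (fun z => moll v j z - c j) = dens (moll v j) := by
        funext z
        unfold dens
        rw [fderiv_sub_const]
      rwa [h4] at h3
    have hlim : Tendsto (fun j => sigF k Ω a b * (bdF a b (fun z => moll v j z ^ 2)
        - 2 * c j * bdF a b (moll v j) + c j ^ 2 * bdF a b (fun _ => 1))) atTop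
        (𝓝 (sigF k Ω a b * (bdF a b (fun z => v z ^ 2) - 2 * 0 * 0
          + 0 ^ 2 * bdF a b (fun _ => 1)))) := by
      apply Tendsto.const_mul
      apply Tendsto.add
      · exact hB2.sub ((hc0.const_mul 2).mul hB)
      · exact (hc0.pow 2).mul_const _
    have := le_of_tendsto_of_tendsto' hlim (energy_tendsto hv hΩ) key
    simpa using this

theorem segInt_congr {f g : ℂ → ℝ} {P Q : ℂ} (h : ∀ z ∈ segment ℝ P Q, f z = g z) :
    segInt P Q f = segInt P Q g := by
  unfold segInt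
  congr 1
  apply intervalIntegral.integral_congr
  intro t ht
  rw [Set.uIcc_of_le (by norm_num : (0 : ℝ) ≤ 1)] at ht
  apply h
  rw [segment_eq_image_lineMap]
  refine ⟨t, ht, ?_⟩
  rw [AffineMap.lineMap_apply, vsub_eq_sub, vadd_eq_add, Complex.real_smul]
  ring

/-- The same for functions which are Lipschitz on the closure of the domain. -/
theorem sigF_mul_le_on {v : ℂ → ℝ} {L : ℝ≥0} {Ω : Set ℂ} (hv : LipschitzOnWith L v (closure Ω))
    (k : ℕ∞) (hO : IsOpen Ω) (hΩ : volume Ω ≠ ⊤) {a b : ι → ℂ}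
    (hseg : ∀ i, segment ℝ (a i) (b i) ⊆ closure Ω) (h0 : bdF a b v = 0) :
    sigF k Ω a b * bdF a b (fun z => v z ^ 2) ≤ ∫ z in Ω, dens v z := by
  obtain ⟨w, hw, he⟩ := hv.extend_real
  have h1 : bdF a b w = 0 := by
    rw [← h0]
    exact Finset.sum_congr rfl fun i _ => segInt_congr fun z hz => (he (hseg i hz)).symm
  have h2 : bdF a b (fun z => v z ^ 2) = bdF a b (fun z => w z ^ 2) :=
    Finset.sum_congr rfl fun i _ => segInt_congr fun z hz => by rw [he (hseg i hz)]
  have h3 : ∫ z in Ω, dens v z = ∫ z in Ω, dens w z := by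
    apply setIntegral_congr_fun hO.measurableSet
    intro z hz
    have h4 : v =ᶠ[𝓝 z] w := by
      filter_upwards [hO.mem_nhds hz] with y hy
      exact he (subset_closure hy)
    unfold dens
    rw [h4.fderiv_eq]
  rw [h2, h3]
  exact sigF_mul_le hw k hΩ h1

end Pool.Agent.NGN
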