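import Mathlib

/-!
# Lipschitz functions on a convex set with a finite closed cover

MP_b1ddb4_an, project NGN, part C.
-/

set_option autoImplicit false

noncomputable section

namespace Pool.Agent.NGN

open Filter Topology Set
open scoped NNReal

/-- A function which is Lipschitz on each piece of a finite closed cover of a convex set is
Lipschitz on the convex set. -/
theorem lipschitzOn_of_cover {ι E F : Type*} [Finite ι] [NormedAddCommGroup E] [NormedSpace ℝ E]
    [NormedAddCommGroup F] {f : E → F} {L : ℝ≥0} {K : Set E} (hK : Convex ℝ K) {C : ι → Set E}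
    (hC : ∀ i, IsClosed (C i)) (hcov : K ⊆ ⋃ i, C i) (hf : ∀ i, LipschitzOnWith L f (C i)) :
    LipschitzOnWith L f K := by
  have hcont : ContinuousOn f K := by
    have h1 : ContinuousOn f (⋃ i, C i) :=
      (locallyFinite_of_finite C).continuousOn_iUnion hC fun i => (hf i).continuousOn
    exact h1.mono hcov
  apply LipschitzOnWith.of_dist_le_mul
  intro x hx y hy
  set γ : ℝ → E := fun t => x + t • (y - x) with hγ
  have hγc : Continuous γ := by fun_prop
  have hγK : ∀ t ∈ Icc (0 : ℝ) 1, γ t ∈ K := fun t ht =>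
    hK.add_smul_sub_mem hx hy ht
  have hdist : ∀ s t : ℝ, s ≤ t → dist (γ t) (γ s) = (t - s) * dist x y := by
    intro s t hst
    rw [dist_eq_norm, dist_eq_norm, hγ]
    have : x + t • (y - x) - (x + s • (y - x)) = (t - s) • (y - x) := by
      rw [sub_smul]; abel
    simp only [this]
    rw [norm_smul, Real.norm_of_nonneg (by linarith), norm_sub_rev]
  set S : Set ℝ := {t | dist (f (γ t)) (f x) ≤ L * (t * dist x y)} with hS
  have hcl : IsClosed (S ∩ Icc 0 1) := by
    have h0 : ContinuousOn (fun t => f (γ t)) (Icc 0 1) := hcont.comp hγc.continuousOn hγK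
    have h1 : ContinuousOn (fun t => dist (f (γ t)) (f x)) (Icc 0 1) :=
      continuous_dist.comp_continuousOn (h0.prodMk continuousOn_const)
    have h2 : ContinuousOn (fun t => L * (t * dist x y)) (Icc (0 : ℝ) 1) := by fun_prop
    have := isClosed_Icc.isClosed_le h1 h2
    have he : S ∩ Icc 0 1 = {t ∈ Icc (0 : ℝ) 1 | dist (f (γ t)) (f x) ≤ L * (t * dist x y)} := by
      ext t; simp [hS, and_comm]
    rw [he]; exact this
  have h0 : (0 : ℝ) ∈ S := by simp [hS, hγ]
  have hstep : ∀ t ∈ S ∩ Ico 0 1, ∀ u ∈ Ioi t, (S ∩ Ioc t u).Nonempty := by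
    intro t ht u hu
    have hu' : t < u := hu
    have ht1 : t < 1 := ht.2.2
    have ht0 : 0 ≤ t := ht.2.1
    -- pigeonhole
    obtain ⟨i, hi⟩ : ∃ i, ∃ᶠ s in 𝓝[>] t, γ s ∈ C i := by
      by_contra hcon
      have h1 : ∀ᶠ s in 𝓝[>] t, ∀ i, γ s ∉ C i := by
        rw [eventually_all]
        intro i
        exact Filter.not_frequently.1 (fun h => hcon ⟨i, h⟩)
      have h2 : ∀ᶠ s in 𝓝[>] t, s ∈ Ioc t 1 := Ioc_mem_nhdsGT ht1
      obtain ⟨s, hs1, hs2⟩ := (h1.and h2).exists
      have h3 := hcov (hγK s ⟨by linarith [hs2.1], hs2.2⟩)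
      obtain ⟨i, hi⟩ := mem_iUnion.1 h3
      exact hs1 i hi
    have hti : γ t ∈ C i :=
      (hC i).mem_of_frequently_of_tendsto hi (hγc.continuousAt.tendsto.mono_left nhdsWithin_le_nhds)
    have h2 : ∀ᶠ s in 𝓝[>] t, s ∈ Ioc t u := Ioc_mem_nhdsGT hu'
    obtain ⟨s, hs1, hs2⟩ := (hi.and_eventually h2).exists
    refine ⟨s, ?_, hs2⟩
    have h3 : dist (f (γ s)) (f (γ t)) ≤ L * ((s - t) * dist x y) := by
      have := (hf i).dist_le_mul _ hs1 _ hti
      rwa [hdist t s hs2.1.le] at this
    have h4 : dist (f (γ t)) (f x) ≤ L * (t * dist x y) := ht.1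
    show dist (f (γ s)) (f x) ≤ L * (s * dist x y)
    calc dist (f (γ s)) (f x) ≤ dist (f (γ s)) (f (γ t)) + dist (f (γ t)) (f x) :=
          dist_triangle _ _ _
      _ ≤ L * ((s - t) * dist x y) + L * (t * dist x y) := add_le_add h3 h4
      _ = L * (s * dist x y) := by ring
  have hmain := hcl.Icc_subset_of_forall_exists_gt h0 hstep
  have h1 : (1 : ℝ) ∈ S := hmain (by simp)
  have h2 : γ 1 = y := by simp [hγ]
  have h3 : dist (f (γ 1)) (f x) ≤ L * (1 * dist x y) := h1
  rw [h2, one_mul, dist_comm] at h3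
  exact h3

/-- A `C^1` function is Lipschitz on compact convex sets. -/
theorem exists_lipschitzOn {E F : Type*} [NormedAddCommGroup E] [NormedSpace ℝ E]
    [NormedAddCommGroup F] [NormedSpace ℝ F] {f : E → F} (hf : ContDiff ℝ 1 f) {K : Set E}
    (hK : IsCompact K) (hc : Convex ℝ K) : ∃ L : ℝ≥0, LipschitzOnWith L f K := by
  obtain ⟨M, hM⟩ := hK.exists_bound_of_continuousOn (hf.continuous_fderiv (by norm_num)).continuousOn
  refine ⟨M.toNNReal, ?_⟩
  apply hc.lipschitzOnWith_of_nnnorm_fderiv_le (𝕜 := ℝ)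
  · intro x _
    exact (hf.differentiable (by norm_num)) x
  · intro x hx
    rw [← NNReal.coe_le_coe, coe_nnnorm, Real.coe_toNNReal']
    exact le_max_of_le_left (hM x hx)

/-- Finite version: one constant for finitely many pieces. -/
theorem exists_lipschitzOn_of_cover {ι E F : Type*} [Finite ι] [NormedAddCommGroup E]
    [NormedSpace ℝ E] [NormedAddCommGroup F] {f : E → F} {K : Set E} (hK : Convex ℝ K)
    {C : ι → Set E} (hC : ∀ i, IsClosed (C i)) (hcov : K ⊆ ⋃ i, C i)
    (hf : ∀ i, ∃ L : ℝ≥0, LipschitzOnWith L f (C i)) : ∃ L : ℝ≥0, LipschitzOnWith L f K := by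
  choose L hL using hf
  have := Fintype.ofFinite ι
  refine ⟨∑ i, L i, ?_⟩
  apply lipschitzOn_of_cover hK hC hcov
  intro i
  exact (hL i).weaken (Finset.single_le_sum (f := L) (fun _ _ => by positivity)
    (Finset.mem_univ i))

end Pool.Agent.NGN
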