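import Pool.Agent.Stk.Defs

/-!
# The first Steklov eigenvalue of n-gons: definitions

MP_b1ddb4_an, Q1 for all `n`.  The plane is `ℂ`.  Blueprint: /team-store/NG_blueprint.md.
-/

set_option autoImplicit false

noncomputable section

namespace Pool.Agent.NGN

open MeasureTheory Pool.Agent.Stk

/-! ### the problem -/

/-- Integral of `f` over the closed polygonal curve with the vertices `P i` (`i : ZMod n`) with
respect to arc length. -/
def bdN {n : ℕ} [NeZero n] (P : ZMod n → ℂ) (f : ℂ → ℝ) : ℝ :=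
  ∑ i, segInt (P i) (P (i + 1)) f

/-- `Ω` is a polygon with exactly the `n` edges `[P i, P (i + 1)]` (`i : ZMod n`): a bounded open
set whose boundary is the simple closed polygonal curve with these edges. -/
structure PolyN {n : ℕ} (Ω : Set ℂ) (P : ZMod n → ℂ) : Prop where
  isOpen : IsOpen Ω
  bounded : Bornology.IsBounded Ω
  frontier_eq : frontier Ω = ⋃ i, segment ℝ (P i) (P (i + 1))
  corner : ∀ i, segment ℝ (P (i - 1)) (P i) ∩ segment ℝ (P i) (P (i + 1)) = {P i}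
  opp : ∀ i j, j ≠ i → j ≠ i + 1 → i ≠ j + 1 →
    Disjoint (segment ℝ (P i) (P (i + 1))) (segment ℝ (P j) (P (j + 1)))
  angle : ∀ i, ¬ Collinear ℝ {P (i - 1), P i, P (i + 1)}

/-- `|∇u|²`. -/
def grad2 (u : ℂ → ℝ) (z : ℂ) : ℝ := (fderiv ℝ u z 1) ^ 2 + (fderiv ℝ u z Complex.I) ^ 2

/-- First Steklov eigenvalue of a polygon `Ω` with the vertices `P i`: the infimum of
`∫_Ω |∇u|² / ∫_{∂Ω} u²` over the functions `u` of class `C^k` on the plane with
`∫_{∂Ω} u = 0` which do not vanish identically on the boundary. -/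
def sigN (k : WithTop ℕ∞) {n : ℕ} [NeZero n] (Ω : Set ℂ) (P : ZMod n → ℂ) : ℝ :=
  sInf {x : ℝ | ∃ u : ℂ → ℝ, ContDiff ℝ k u ∧ bdN P u = 0 ∧
    bdN P (fun z => u z ^ 2) ≠ 0 ∧
      x = (∫ z in Ω, grad2 u z) / bdN P (fun z => u z ^ 2)}

/-- `tan (π / n)`. -/
def tauN (n : ℕ) : ℝ := Real.tan (Real.pi / n)

/-- The primitive `n`-th root of unity `exp (2 π i / n)`. -/
def omN (n : ℕ) : ℂ := Complex.exp (2 * Real.pi * Complex.I / n)

/-- The vertices of the regular `n`-gon with centre `0` and inradius `1`; the side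
`[regP n j, regP n (j + 1)]` is `ω ^ j` times the side `[1 - i τ, 1 + i τ]`. -/
def regP (n : ℕ) (j : ZMod n) : ℂ := (1 - tauN n * Complex.I) * omN n ^ j.val

/-- The regular `n`-gon with centre `0` and inradius `1`. -/
def regO (n : ℕ) : Set ℂ := interior (convexHull ℝ (Set.range (regP n)))

/-! ### constants -/

/-- `δ = 1 + τ² / 3`. -/
def delN (n : ℕ) : ℝ := 1 + tauN n ^ 2 / 3

/-- The bound given by the linear functions. -/
def BB (n : ℕ) : ℝ := Real.sqrt (n * tauN n) / delN n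

/-- `κ_n`. -/
def kapN (n : ℕ) : ℝ :=
  1 / 3 + tauN n ^ 2 * ((n : ℝ) ^ 2 - 4 * n + 14) / 45 + tauN n ^ 4 * ((n : ℝ) - 1) ^ 2 / 27

/-- The relative defect of the bound `BB n`. -/
def epsN (n : ℕ) : ℝ :=
  tauN n ^ 2 * kapN n / (2 * n * delN n * (delN n - 5 * tauN n / 11))

/-! ### geometry -/

/-- Cross product in the plane. -/
def cr (a b : ℂ) : ℝ := a.re * b.im - a.im * b.re

/-- Inner product in the plane. -/
def ip (a b : ℂ) : ℝ := a.re * b.re + a.im * b.im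

/-- Perimeter. -/
def perN {n : ℕ} [NeZero n] (P : ZMod n → ℂ) : ℝ := bdN P (fun _ => 1)

/-- The centroid (with respect to arc length) of the boundary. -/
def cen {n : ℕ} [NeZero n] (P : ZMod n → ℂ) : ℂ :=
  ⟨bdN P (fun z => z.re) / perN P, bdN P (fun z => z.im) / perN P⟩

/-- `P` is a strictly convex polygon, positively oriented, and `0` lies inside. -/
structure Cvx {n : ℕ} (P : ZMod n → ℂ) : Prop where
  pos : ∀ i, 0 < cr (P i) (P (i + 1))
  left : ∀ i k, k ≠ i → k ≠ i + 1 → 0 < cr (P (i + 1) - P i) (P k - P i)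

/-- Distance of `0` to the line through `v, w` (positive if `0` is on the left). -/
def sH (v w : ℂ) : ℝ := cr v w / ‖w - v‖

/-- `κ`: the midpoint of `[v, w]` is `h (ν + κ t)`. -/
def sK (v w : ℂ) : ℝ := (‖w‖ ^ 2 - ‖v‖ ^ 2) / (2 * cr v w)

/-- `λ`: the half side is `h λ τ t`. -/
def sL (tau : ℝ) (v w : ℂ) : ℝ := ‖w - v‖ ^ 2 / (2 * tau * cr v w)

/-- The angle under which a side is seen from `0`. -/
def omS (tau ka la : ℝ) : ℝ := Real.arctan (la * tau + ka) + Real.arctan (la * tau - ka)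

/-- `q`. -/
def qS (tau : ℝ) : ℝ := (1 - tau ^ 4) / (4 * tau)

/-- `r`. -/
def rS (tau : ℝ) : ℝ := (1 + tau ^ 2 / 3) / 2 - 2 * qS tau * Real.arctan tau

/-- The function `L` of a side `(h, κ, λ)`. -/
def LS (tau h ka la : ℝ) : ℝ :=
  h ^ 3 * la * (1 + ka ^ 2 + la ^ 2 * tau ^ 2 / 3) - 3 * (1 + tau ^ 2 / 3) / 2 * h ^ 2 * la
    + qS tau * omS tau ka la + rS tau

/-! ### the sector and the symmetric fields -/

/-- The sector of the regular polygon. -/
def sec (tau : ℝ) : Set ℂ := {z | 0 < z.re ∧ z.re < 1 ∧ |z.im| < tau * z.re}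

/-- Vector fields of class `C¹` with the symmetry of the regular `n`-gon. -/
structure Sym (n : ℕ) (U : ℂ → ℂ) : Prop where
  smooth : ContDiff ℝ 1 U
  rot : ∀ z, U (omN n * z) = omN n * U z
  conj : ∀ z, U ((starRingEnd ℂ) z) = (starRingEnd ℂ) (U z)

/-- The numbers belonging to a vector field on the sector. -/
structure EDat where
  /-- `∫ (∂ₓv₁)²` -/
  a : ℝ
  /-- `∫ (∂_yv₂)²` -/
  b : ℝ
  /-- `∫ (∂_yv₁)²` -/
  d : ℝ
  /-- `∫ (∂ₓv₂)²` -/
  f : ℝ
  /-- `∫ (∂ₓv₁ - ∂_yv₂)² - 2 ∫ ∂_yv₁ ∂ₓv₂` -/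
  ga : ℝ
  /-- `∫ v₁²` over the side -/
  M1 : ℝ
  /-- `∫ v₂²` over the side -/
  M2 : ℝ
  /-- `∫ y v₂` over the side -/
  l : ℝ

/-- The numbers belonging to a vector field `v = v₁ + i v₂`. -/
def datOf (tau : ℝ) (v : ℂ → ℂ) : EDat where
  a := ∫ z in sec tau, ((fderiv ℝ v z 1).re) ^ 2
  b := ∫ z in sec tau, ((fderiv ℝ v z Complex.I).im) ^ 2
  d := ∫ z in sec tau, ((fderiv ℝ v z Complex.I).re) ^ 2
  f := ∫ z in sec tau, ((fderiv ℝ v z 1).im) ^ 2
  ga := (∫ z in sec tau, ((fderiv ℝ v z 1).re - (fderiv ℝ v z Complex.I).im) ^ 2)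
    - 2 * ∫ z in sec tau, (fderiv ℝ v z Complex.I).re * (fderiv ℝ v z 1).im
  M1 := ∫ y in (-tau)..tau, ((v ⟨1, y⟩).re) ^ 2
  M2 := ∫ y in (-tau)..tau, ((v ⟨1, y⟩).im) ^ 2
  l := ∫ y in (-tau)..tau, y * (v ⟨1, y⟩).im

/-- Total energy on the sector. -/
def EDat.E (D : EDat) : ℝ := D.a + D.b + D.d + D.f

/-- Total square integral on the side. -/
def EDat.M (D : EDat) : ℝ := D.M1 + D.M2

/-- The class `VV`: symmetric fields whose normal component has mean zero on the side. -/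
structure VV (n : ℕ) (v : ℂ → ℂ) : Prop where
  sym : Sym n v
  mean : ∫ y in (-tauN n)..(tauN n), (v ⟨1, y⟩).re = 0

/-- Energy of the transplanted field `id + θ v`. -/
def EN {n : ℕ} [NeZero n] (tau : ℝ) (D : EDat) (h ka la : ZMod n → ℝ) (th : ℝ) : ℝ :=
  2 * tau * ∑ i, h i ^ 2 * la i
    + th ^ 2 * ∑ i, h i ^ 2 * la i * (D.a + D.b + ka i ^ 2 * D.ga + la i ^ 2 * D.f
      + (1 + ka i ^ 2) ^ 2 * D.d / la i ^ 2)

/-- Boundary square integral of the transplanted field `id + θ v`. -/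
def MN {n : ℕ} [NeZero n] (tau : ℝ) (D : EDat) (h ka la : ZMod n → ℝ) (th : ℝ) : ℝ :=
  2 * tau * ∑ i, h i ^ 3 * la i * (1 + ka i ^ 2 + la i ^ 2 * tau ^ 2 / 3)
    + 2 * th * D.l * ∑ i, h i ^ 3 * la i ^ 3
    + th ^ 2 * ∑ i, h i ^ 3 * la i * ((1 + ka i ^ 2) * D.M1 + la i ^ 2 * D.M2)

end Pool.Agent.NGN
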