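import Pool.Agent.NGN.Main
import Pool.Agent.NGN.Adm

/-!
# n-gons: final form
-/

set_option autoImplicit false

noncomputable section

namespace Pool.Agent.NGN

open MeasureTheory Pool.Agent.Stk

theorem main_all {n : ℕ} [NeZero n] (hn : 3 ≤ n) {k : ℕ∞} (hk : 1 ≤ k) {Ω : Set ℂ}
    {P : ZMod n → ℂ} (h : PolyN Ω P) :
    sigN k Ω P * Real.sqrt (volume.real Ω) ≤
      sigN k (regO n) (regP n) * Real.sqrt (volume.real (regO n)) := by
  rcases Nat.lt_or_ge n 5 with h5 | h5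
  · have h34 : n = 3 ∨ n = 4 := by omega
    rcases h34 with rfl | rfl
    · convert three_main hk h
    · convert four_main hk h
  · rw [B_vol hn]
    have hτ : 0 < tauN n := tauN_pos hn
    have hnR : (5 : ℝ) ≤ n := by exact_mod_cast h5
    have hs : 0 < Real.sqrt (n * tauN n) := Real.sqrt_pos.2 (by positivity)
    rw [← div_le_iff₀ hs]
    have hk' : (1 : WithTop ℕ∞) ≤ (k : WithTop ℕ∞) := by exact_mod_cast hk
    apply le_csInf
    · obtain ⟨u, hu, h0, h1⟩ := exists_adm (B_poly (n := n) hn) k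
      exact ⟨_, u, hu, h0, h1, rfl⟩
    · rintro x ⟨u, hu, h0, h1, rfl⟩
      rw [div_le_iff₀ hs]
      exact main5 h5 h (hu.of_le hk') h0 h1

/-- Two-sided bounds of the maximal value for `n ≥ 5`. -/
theorem bounds {n : ℕ} [NeZero n] (hn : 5 ≤ n) {k : ℕ∞} (hk : 1 ≤ k) :
    (1 - epsN n) * BB n ≤ sigN k (regO n) (regP n) * Real.sqrt (volume.real (regO n)) ∧
      sigN k (regO n) (regP n) * Real.sqrt (volume.real (regO n)) ≤ BB n := by
  have hn3 : 3 ≤ n := by omega
  refine ⟨?_, poly_linear hn (B_poly hn3)⟩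
  rw [B_vol hn3]
  have hk' : (1 : WithTop ℕ∞) ≤ (k : WithTop ℕ∞) := by exact_mod_cast hk
  have e : (1 - epsN n) * BB n = (1 - epsN n) / delN n * Real.sqrt (n * tauN n) := by
    unfold BB; ring
  rw [e]
  apply mul_le_mul_of_nonneg_right _ (Real.sqrt_nonneg _)
  apply le_csInf
  · obtain ⟨u, hu, h0, h1⟩ := exists_adm (B_poly (n := n) hn3) k
    exact ⟨_, u, hu, h0, h1, rfl⟩
  · rintro x ⟨u, hu, h0, h1, rfl⟩
    exact ray_lower hn (hu.of_le hk') h0 h1

end Pool.Agent.NGN
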