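import Pool.Agent.NGN.Three
import Pool.Agent.Sq4.Fin5

/-!
# n = 4: the bridge to the theorem on quadrilaterals
-/

set_option autoImplicit false

noncomputable section

namespace Pool.Agent.NGN

open MeasureTheory Pool.Agent.Stk

private theorem t4_cases (i : ZMod 4) : i = 0 ∨ i = 1 ∨ i = 2 ∨ i = 3 := by
  have h : ∀ j : ZMod 4, j = 0 ∨ j = 1 ∨ j = 2 ∨ j = 3 := by decide
  exact h i

/-- A polygon with four sides in the two notations. -/
theorem poly4_of_polyN {Ω : Set ℂ} {P : ZMod 4 → ℂ} (h : PolyN Ω P) :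
    Pool.Agent.Sq4.Poly4 Ω (P 0) (P 1) (P 2) (P 3) := by
  have e1 : (0 : ZMod 4) + 1 = 1 := by decide
  have e2 : (1 : ZMod 4) + 1 = 2 := by decide
  have e3 : (2 : ZMod 4) + 1 = 3 := by decide
  have e4 : (3 : ZMod 4) + 1 = 0 := by decide
  have f0 : (0 : ZMod 4) - 1 = 3 := by decide
  have f1 : (1 : ZMod 4) - 1 = 0 := by decide
  have f2 : (2 : ZMod 4) - 1 = 1 := by decide
  have f3 : (3 : ZMod 4) - 1 = 2 := by decide
  have c0 := h.corner 0
  have c1 := h.corner 1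
  have c2 := h.corner 2
  have c3 := h.corner 3
  have o1 := h.opp 0 2 (by decide) (by decide) (by decide)
  have o2 := h.opp 1 3 (by decide) (by decide) (by decide)
  have a0 := h.angle 0
  have a1 := h.angle 1
  have a2 := h.angle 2
  have a3 := h.angle 3
  rw [f0, e1] at c0 a0
  rw [f1, e2] at c1 a1
  rw [f2, e3] at c2 a2
  rw [f3, e4] at c3 a3
  rw [e1, e3] at o1
  rw [e2, e4] at o2
  refine ⟨h.isOpen, h.bounded, ?_, c0, c1, c2, c3, o1, o2, a0, a1, a2, a3⟩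
  rw [h.frontier_eq]
  ext z
  rw [Set.mem_iUnion]
  constructor
  · rintro ⟨i, hi⟩
    rcases t4_cases i with rfl | rfl | rfl | rfl
    · rw [e1] at hi; exact Or.inl (Or.inl (Or.inl hi))
    · rw [e2] at hi; exact Or.inl (Or.inl (Or.inr hi))
    · rw [e3] at hi; exact Or.inl (Or.inr hi)
    · rw [e4] at hi; exact Or.inr hi
  · rintro (((hz | hz) | hz) | hz)
    · exact ⟨0, by rw [e1]; exact hz⟩
    · exact ⟨1, by rw [e2]; exact hz⟩
    · exact ⟨2, by rw [e3]; exact hz⟩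
    · exact ⟨3, by rw [e4]; exact hz⟩

private theorem t4_bd (P : ZMod 4 → ℂ) :
    bdN P = Pool.Agent.Sq4.bd4 (P 0) (P 1) (P 2) (P 3) := by
  funext f
  have e1 : (0 : ZMod 4) + 1 = 1 := by decide
  have e2 : (1 : ZMod 4) + 1 = 2 := by decide
  have e3 : (2 : ZMod 4) + 1 = 3 := by decide
  have e4 : (3 : ZMod 4) + 1 = 0 := by decide
  have h : bdN P f = segInt (P 0) (P (0 + 1)) f + segInt (P 1) (P (1 + 1)) f +
      segInt (P 2) (P (2 + 1)) f + segInt (P 3) (P (3 + 1)) f := by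
    unfold bdN
    exact Fin.sum_univ_four (fun i : ZMod 4 => segInt (P i) (P (i + 1)) f)
  rw [h, e1, e2, e3, e4]
  rfl

/-- The first eigenvalue of a polygon with four sides. -/
theorem sigN_four (k : WithTop ℕ∞) (Ω : Set ℂ) (P : ZMod 4 → ℂ) :
    sigN k Ω P = Pool.Agent.Sq4.sigP k Ω (P 0) (P 1) (P 2) (P 3) := by
  unfold sigN Pool.Agent.Sq4.sigP
  rw [t4_bd]
  rfl

private theorem t4_isSq : Pool.Agent.Sq4.IsSq (regP 4 0) (regP 4 1) (regP 4 2) (regP 4 3) := by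
  have h1 := dist_regP_add (n := 4) 1 0 1
  have h2 := dist_regP_add (n := 4) 1 1 2
  have h3 := dist_regP_add (n := 4) 1 2 3
  have h4 := dist_regP_add (n := 4) 1 0 2
  have e0 : (1 : ZMod 4) + 0 = 1 := by decide
  have e1 : (1 : ZMod 4) + 1 = 2 := by decide
  have e2 : (1 : ZMod 4) + 2 = 3 := by decide
  have e3 : (1 : ZMod 4) + 3 = 0 := by decide
  rw [e0, e1] at h1
  rw [e1, e2] at h2
  rw [e2, e3] at h3
  rw [e0, e2] at h4
  exact ⟨h1.symm, h2.symm, h3.symm, h4.symm⟩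

private theorem t4_reg {k : ℕ∞} (hk : 1 ≤ k) :
    sigN k (regO 4) (regP 4) * Real.sqrt (volume.real (regO 4)) = Pool.Agent.Sq4.mu / 4 := by
  have hr := poly4_of_polyN (B_poly (n := 4) (by norm_num))
  rw [sigN_four]
  exact (Pool.Agent.Sq4.poly_main hk hr).2.2.2.2 t4_isSq

/-- Quadrilaterals: the regular one is the maximiser. -/
theorem four_main {k : ℕ∞} (hk : 1 ≤ k) {Ω : Set ℂ} {P : ZMod 4 → ℂ} (h : PolyN Ω P) :
    sigN k Ω P * Real.sqrt (volume.real Ω) ≤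
      sigN k (regO 4) (regP 4) * Real.sqrt (volume.real (regO 4)) := by
  rw [t4_reg hk, sigN_four]
  exact (Pool.Agent.Sq4.poly_main hk (poly4_of_polyN h)).2.2.1

/-- The maximal value for quadrilaterals. -/
theorem four_value {k : ℕ∞} (hk : 1 ≤ k) : ∃ α : ℝ, 0 < α ∧ α < Real.pi / 2 ∧
    Real.tan α * Real.tanh α = 1 ∧
      sigN k (regO 4) (regP 4) * Real.sqrt (volume.real (regO 4)) = 2 * α * Real.tanh α := by
  refine ⟨Pool.Agent.Sq4.al, Pool.Agent.Sq4.al_pos, Pool.Agent.Sq4.al_tan.1,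
    Pool.Agent.Sq4.al_tan.2, ?_⟩
  rw [t4_reg hk]
  unfold Pool.Agent.Sq4.mu
  ring

end Pool.Agent.NGN
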