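import Pool.Agent.NGN.Defs
import Pool.Agent.Sq4.Topo1
import Pool.Agent.Sq4.Topo2
import Pool.Agent.Stk.Tri

/-!
# Strictly convex polygons: cones, half planes, hull, area

MP_b1ddb4_an, Q1 for all `n`.  For a strictly convex polygon `P` (`Cvx P`):
the cones of the sides cover the plane and their interiors are disjoint, the convex hull is the
intersection of the half planes of the sides and the union of the triangles `(0, P i, P (i + 1))`,
its interior is a polygon with the vertices `P i`, and its area is the sum of the areas of the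
triangles.
-/

set_option autoImplicit false

noncomputable section

namespace Pool.Agent.NGN

open MeasureTheory Pool.Agent.Stk

/-! ### algebra of the cross product -/

private theorem hl_id (a b z : ℂ) : cr a b * ip z z = cr a z * ip b z - ip a z * cr b z := by
  unfold cr ip; ring

private theorem hl_swap (a b : ℂ) : cr a b = - cr b a := by unfold cr; ring

private theorem hl_self (a : ℂ) : cr a a = 0 := by unfold cr; ring

private theorem hl_add_right (a b c : ℂ) : cr a (b + c) = cr a b + cr a c := by
  unfold cr; simp only [Complex.add_re, Complex.add_im]; ring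

private theorem hl_sub_right (a b c : ℂ) : cr a (b - c) = cr a b - cr a c := by
  unfold cr; simp only [Complex.sub_re, Complex.sub_im]; ring

private theorem hl_neg_right (a b : ℂ) : cr a (-b) = - cr a b := by
  unfold cr; simp only [Complex.neg_re, Complex.neg_im]; ring

private theorem hl_zero_right (a : ℂ) : cr a 0 = 0 := by unfold cr; simp

private theorem hl_zero_left (a : ℂ) : cr 0 a = 0 := by unfold cr; simp

private theorem hl_smul_right (a b : ℂ) (t : ℝ) : cr a ((t : ℂ) * b) = t * cr a b := by
  unfold cr
  simp only [Complex.mul_re, Complex.mul_im, Complex.ofReal_re, Complex.ofReal_im]; ring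

private theorem hl_ip_pos {z : ℂ} (hz : z ≠ 0) : 0 < ip z z := by
  unfold ip
  by_contra h
  apply hz
  have h1 : z.re * z.re = 0 := by nlinarith [mul_self_nonneg z.re, mul_self_nonneg z.im]
  have h2 : z.im * z.im = 0 := by nlinarith [mul_self_nonneg z.re, mul_self_nonneg z.im]
  exact Complex.ext (mul_self_eq_zero.1 h1) (mul_self_eq_zero.1 h2)

private theorem hl_ne_of_cr_left {a b : ℂ} (h : 0 < cr a b) : a ≠ 0 := by
  rintro rfl
  rw [hl_zero_left] at h
  exact lt_irrefl _ h

/-- Coordinates with respect to the basis `a, b`. -/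
private theorem hl_coord {a b : ℂ} (h : 0 < cr a b) (z : ℂ) :
    z = ((cr z b / cr a b : ℝ) : ℂ) * a + ((cr a z / cr a b : ℝ) : ℂ) * b := by
  have h0 : cr a b ≠ 0 := h.ne'
  apply Complex.ext
  · simp only [Complex.add_re, Complex.mul_re, Complex.ofReal_re, Complex.ofReal_im]
    field_simp
    unfold cr
    ring
  · simp only [Complex.add_im, Complex.mul_im, Complex.ofReal_re, Complex.ofReal_im]
    field_simp
    unfold cr
    ring

/-! ### cones -/

section cones

variable {n : ℕ} [NeZero n] {P : ZMod n → ℂ}

private theorem hl_not_all_pos (hp : ∀ i, 0 < cr (P i) (P (i + 1))) (z : ℂ) :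
    ¬ ∀ i, 0 < cr (P i) z := by
  intro h
  have hz : z ≠ 0 := by
    rintro rfl
    have := h 0
    rw [hl_zero_right] at this
    exact lt_irrefl _ this
  have hzz := hl_ip_pos hz
  have hlt : ∀ i, ip (P i) z / cr (P i) z < ip (P (i + 1)) z / cr (P (i + 1)) z := by
    intro i
    rw [div_lt_div_iff₀ (h i) (h (i + 1))]
    have := hl_id (P i) (P (i + 1)) z
    have h2 : 0 < cr (P i) (P (i + 1)) * ip z z := mul_pos (hp i) hzz
    linarith [mul_comm (cr (P i) z) (ip (P (i + 1)) z)]
  have h1 : ∑ i, ip (P (i + 1)) z / cr (P (i + 1)) z = ∑ i, ip (P i) z / cr (P i) z :=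
    Equiv.sum_comp (Equiv.addRight (1 : ZMod n)) (fun i => ip (P i) z / cr (P i) z)
  have h2 : ∑ i, ip (P i) z / cr (P i) z < ∑ i, ip (P (i + 1)) z / cr (P (i + 1)) z :=
    Finset.sum_lt_sum_of_nonempty ⟨0, Finset.mem_univ _⟩ fun i _ => hlt i
  exact absurd h1 h2.ne'

/-- The closed cones of the sides cover the plane. -/
theorem cone_cover (hp : ∀ i, 0 < cr (P i) (P (i + 1))) (z : ℂ) :
    ∃ i, 0 ≤ cr (P i) z ∧ 0 ≤ cr z (P (i + 1)) := by
  by_contra hcon
  push Not at hcon
  by_cases hex : ∃ i, 0 ≤ cr (P i) z
  · obtain ⟨i0, hi0⟩ := hex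
    have hstep : ∀ i, 0 ≤ cr (P i) z → 0 < cr (P (i + 1)) z := by
      intro i hi
      have := hcon i hi
      rw [hl_swap] at this
      linarith
    have hall : ∀ m : ℕ, 0 < cr (P (i0 + (m + 1 : ℕ))) z := by
      intro m
      induction m with
      | zero =>
        have := hstep i0 hi0
        simpa using this
      | succ m ih =>
        have := hstep _ ih.le
        have e : i0 + ((m + 1 + 1 : ℕ) : ZMod n) = i0 + ((m + 1 : ℕ) : ZMod n) + 1 := by
          push_cast; ring
        rw [e]
        exact this
    apply hl_not_all_pos hp z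
    intro i
    have hn : 1 ≤ n := Nat.one_le_iff_ne_zero.2 (NeZero.ne n)
    have h1 := hall ((i - i0).val + n - 1)
    have e : i0 + (((i - i0).val + n - 1 + 1 : ℕ) : ZMod n) = i := by
      rw [show (i - i0).val + n - 1 + 1 = (i - i0).val + n by omega]
      push_cast
      rw [ZMod.natCast_self, ZMod.natCast_zmod_val]
      ring
    rw [e] at h1
    exact h1
  · push Not at hex
    apply hl_not_all_pos hp (-z)
    intro i
    rw [hl_neg_right]
    linarith [hex i]

end cones

/-! ### half planes -/

/-- The affine function which is zero on the line of the side `i` and positive on its left. -/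
def ell {n : ℕ} (P : ZMod n → ℂ) (i : ZMod n) (z : ℂ) : ℝ := cr (P (i + 1) - P i) (z - P i)

section hull

variable {n : ℕ} {P : ZMod n → ℂ}

theorem ell_comb (i : ZMod n) {a b : ℝ} (hab : a + b = 1) (x y : ℂ) :
    ell P i (a • x + b • y) = a * ell P i x + b * ell P i y := by
  obtain rfl : b = 1 - a := by linarith
  unfold ell cr
  simp only [Complex.add_re, Complex.add_im, Complex.sub_re, Complex.sub_im, Complex.smul_re,
    Complex.smul_im, smul_eq_mul]
  ring

theorem ell_self (i : ZMod n) : ell P i (P i) = 0 := by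
  unfold ell
  rw [sub_self, hl_zero_right]

theorem ell_succ (i : ZMod n) : ell P i (P (i + 1)) = 0 := by
  unfold ell
  rw [hl_self]

theorem ell_zero (i : ZMod n) : ell P i 0 = cr (P i) (P (i + 1)) := by
  unfold ell cr
  simp only [Complex.sub_re, Complex.sub_im, Complex.zero_re, Complex.zero_im]
  ring

theorem ell_mul (i : ZMod n) (t : ℝ) (z : ℂ) :
    ell P i ((t : ℂ) * z) = cr (P i) (P (i + 1)) - t * (cr (P i) (P (i + 1)) - ell P i z) := by
  unfold ell cr
  simp only [Complex.sub_re, Complex.sub_im, Complex.mul_re, Complex.mul_im, Complex.ofReal_re,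
    Complex.ofReal_im]
  ring

theorem continuous_ell (i : ZMod n) : Continuous (ell P i) := by
  unfold ell cr
  simp only [Complex.sub_re, Complex.sub_im]
  fun_prop

theorem ell_vertex (h : Cvx P) (i k : ZMod n) : 0 ≤ ell P i (P k) := by
  by_cases h1 : k = i
  · rw [h1, ell_self]
  · by_cases h2 : k = i + 1
    · rw [h2, ell_succ]
    · exact (h.left i k h1 h2).le

theorem ell_vertex_pos (h : Cvx P) {i k : ZMod n} (h1 : k ≠ i) (h2 : k ≠ i + 1) :
    0 < ell P i (P k) := h.left i k h1 h2

/-- The intersection of the half planes. -/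
theorem hull_subset (h : Cvx P) : convexHull ℝ (Set.range P) ⊆ {z | ∀ i, 0 ≤ ell P i z} := by
  apply convexHull_min
  · rintro _ ⟨k, rfl⟩ i
    exact ell_vertex h i k
  · rintro x hx y hy a b ha hb hab i
    rw [ell_comb i hab]
    exact add_nonneg (mul_nonneg ha (hx i)) (mul_nonneg hb (hy i))

/-- On the line of the side `i` there are only the points of the side. -/
theorem hull_face (h : Cvx P) (i : ZMod n) {z : ℂ} (hz : z ∈ convexHull ℝ (Set.range P))
    (h0 : ell P i z = 0) : z ∈ segment ℝ (P i) (P (i + 1)) := by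
  have hseg : ∀ x ∈ segment ℝ (P i) (P (i + 1)), ell P i x = 0 := by
    rintro x ⟨a, b, -, -, hab, rfl⟩
    rw [ell_comb i hab, ell_self, ell_succ]
    ring
  have hsub : convexHull ℝ (Set.range P) ⊆
      {z | z ∈ segment ℝ (P i) (P (i + 1)) ∨ 0 < ell P i z} := by
    apply convexHull_min
    · rintro _ ⟨k, rfl⟩
      by_cases h1 : k = i
      · left; rw [h1]; exact left_mem_segment ℝ _ _
      · by_cases h2 : k = i + 1
        · left; rw [h2]; exact right_mem_segment ℝ _ _
        · right; exact ell_vertex_pos h h1 h2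
    · rintro x hx y hy a b ha hb hab
      have hx0 : 0 ≤ ell P i x := by
        rcases hx with hx | hx
        · rw [hseg x hx]
        · exact hx.le
      have hy0 : 0 ≤ ell P i y := by
        rcases hy with hy | hy
        · rw [hseg y hy]
        · exact hy.le
      by_cases ha0 : a = 0
      · obtain rfl : b = 1 := by linarith
        subst ha0
        simpa using hy
      · by_cases hb0 : b = 0
        · obtain rfl : a = 1 := by linarith
          subst hb0
          simpa using hx
        · have ha' : 0 < a := lt_of_le_of_ne ha (Ne.symm ha0)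
          have hb' : 0 < b := lt_of_le_of_ne hb (Ne.symm hb0)
          rcases hx with hx | hx
          · rcases hy with hy | hy
            · left; exact (convex_segment _ _) hx hy ha hb hab
            · right
              change 0 < ell P i (a • x + b • y)
              rw [ell_comb i hab]
              have := mul_nonneg ha hx0
              have := mul_pos hb' hy
              linarith
          · right
            change 0 < ell P i (a • x + b • y)
            rw [ell_comb i hab]
            have := mul_nonneg hb hy0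
            have := mul_pos ha' hx
            linarith
  rcases hsub hz with h1 | h1
  · exact h1
  · rw [h0] at h1
    exact absurd h1 (lt_irrefl _)

variable [NeZero n]

private theorem hl_hull3_subset {Q : Set ℂ} (hQ : Convex ℝ Q) {x y w : ℂ} (hx : x ∈ Q) (hy : y ∈ Q)
    (hw : w ∈ Q) {a b c : ℝ} (ha : 0 ≤ a) (hb : 0 ≤ b) (hc : 0 ≤ c) (habc : a + b + c = 1) :
    (a : ℂ) * x + (b : ℂ) * y + (c : ℂ) * w ∈ Q := by
  have h1 : convexHull ℝ {x, y, w} ⊆ Q := by
    apply convexHull_min _ hQ
    rintro u (rfl | rfl | rfl)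
    · exact hx
    · exact hy
    · exact hw
  apply h1
  rw [Pool.Agent.Sq4.hull3]
  exact ⟨a, b, c, ha, hb, hc, habc, rfl⟩

theorem zero_mem_hull (h : Cvx P) : (0 : ℂ) ∈ convexHull ℝ (Set.range P) := by
  obtain ⟨i, h1, h2⟩ := cone_cover h.pos (-(P 0))
  have hi := h.pos i
  have hc := hl_coord hi (-(P 0))
  set α : ℝ := cr (-(P 0)) (P (i + 1)) / cr (P i) (P (i + 1)) with hα
  set β : ℝ := cr (P i) (-(P 0)) / cr (P i) (P (i + 1)) with hβ
  have hα0 : 0 ≤ α := div_nonneg h2 hi.le
  have hβ0 : 0 ≤ β := div_nonneg h1 hi.le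
  have hs : 0 < 1 + α + β := by linarith
  have key : (0 : ℂ) = ((1 / (1 + α + β) : ℝ) : ℂ) * P 0 + ((α / (1 + α + β) : ℝ) : ℂ) * P i
      + ((β / (1 + α + β) : ℝ) : ℂ) * P (i + 1) := by
    have h3 : ((1 / (1 + α + β) : ℝ) : ℂ) * P 0 + ((α / (1 + α + β) : ℝ) : ℂ) * P i
      + ((β / (1 + α + β) : ℝ) : ℂ) * P (i + 1) =
      ((1 / (1 + α + β) : ℝ) : ℂ) * (P 0 + ((α : ℂ) * P i + (β : ℂ) * P (i + 1))) := by
      push_cast
      ring
    rw [h3, ← hc]
    ring
  rw [key]
  apply hl_hull3_subset (convex_convexHull ℝ _)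
  · exact subset_convexHull ℝ _ ⟨0, rfl⟩
  · exact subset_convexHull ℝ _ ⟨i, rfl⟩
  · exact subset_convexHull ℝ _ ⟨i + 1, rfl⟩
  · positivity
  · positivity
  · positivity
  · field_simp

omit [NeZero n] in
/-- A point of the cone of the side `i` on the left of the line of the side `i` lies in the
triangle `(0, P i, P (i + 1))`. -/
theorem mem_tri_of (h : Cvx P) {z : ℂ} {i : ZMod n} (h1 : 0 ≤ cr (P i) z)
    (h2 : 0 ≤ cr z (P (i + 1))) (h3 : 0 ≤ ell P i z) :
    z ∈ convexHull ℝ {(0 : ℂ), P i, P (i + 1)} := by
  have hi := h.pos i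
  rw [Pool.Agent.Sq4.hull3]
  refine ⟨1 - cr z (P (i + 1)) / cr (P i) (P (i + 1)) - cr (P i) z / cr (P i) (P (i + 1)),
    cr z (P (i + 1)) / cr (P i) (P (i + 1)), cr (P i) z / cr (P i) (P (i + 1)), ?_,
    div_nonneg h2 hi.le, div_nonneg h1 hi.le, by ring, ?_⟩
  · have e : 1 - cr z (P (i + 1)) / cr (P i) (P (i + 1)) - cr (P i) z / cr (P i) (P (i + 1)) =
        ell P i z / cr (P i) (P (i + 1)) := by
      have : ell P i z = cr (P i) (P (i + 1)) - cr z (P (i + 1)) - cr (P i) z := by
        unfold ell cr
        simp only [Complex.sub_re, Complex.sub_im]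
        ring
      rw [this]
      field_simp
    rw [e]
    exact div_nonneg h3 hi.le
  · have := hl_coord hi z
    rw [mul_zero, zero_add]
    exact this

theorem tri_subset_hull (h : Cvx P) (i : ZMod n) :
    convexHull ℝ {(0 : ℂ), P i, P (i + 1)} ⊆ convexHull ℝ (Set.range P) := by
  apply convexHull_min _ (convex_convexHull ℝ _)
  rintro u (rfl | rfl | rfl)
  · exact zero_mem_hull h
  · exact subset_convexHull ℝ _ ⟨i, rfl⟩
  · exact subset_convexHull ℝ _ ⟨i + 1, rfl⟩

/-- The hull is the union of the triangles. -/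
theorem hull_eq_iUnion (h : Cvx P) :
    convexHull ℝ (Set.range P) = ⋃ i, convexHull ℝ {(0 : ℂ), P i, P (i + 1)} := by
  apply Set.Subset.antisymm
  · intro z hz
    obtain ⟨i, h1, h2⟩ := cone_cover h.pos z
    exact Set.mem_iUnion.2 ⟨i, mem_tri_of h h1 h2 (hull_subset h hz i)⟩
  · exact Set.iUnion_subset fun i => tri_subset_hull h i

/-- The hull is the intersection of the half planes. -/
theorem hull_eq (h : Cvx P) : convexHull ℝ (Set.range P) = {z | ∀ i, 0 ≤ ell P i z} := by
  apply Set.Subset.antisymm (hull_subset h)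
  intro z hz
  obtain ⟨i, h1, h2⟩ := cone_cover h.pos z
  exact tri_subset_hull h i (mem_tri_of h h1 h2 (hz i))

theorem isCompact_hull : IsCompact (convexHull ℝ (Set.range P)) :=
  (Set.finite_range P).isCompact_convexHull ℝ

/-- The interior of the hull. -/
theorem interior_hull (h : Cvx P) :
    interior (convexHull ℝ (Set.range P)) = {z | ∀ i, 0 < ell P i z} := by
  apply Set.Subset.antisymm
  · intro z hz i
    have hz0 := hull_subset h (interior_subset hz) i
    by_contra hcon
    have hz1 : ell P i z = 0 := le_antisymm (not_lt.1 hcon) hz0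
    set d : ℂ := P (i + 1) - P i with hd
    have hd0 : d ≠ 0 := by
      intro h0
      have h1 := ell_zero (P := P) i
      unfold ell at h1
      rw [← hd, h0, hl_zero_left] at h1
      linarith [h.pos i]
    have ht : Filter.Tendsto (fun ε : ℝ => z + (ε : ℂ) * (-(Complex.I * d))) (nhds 0) (nhds z) := by
      have hc : Continuous fun ε : ℝ => z + (ε : ℂ) * (-(Complex.I * d)) := by fun_prop
      have := hc.tendsto 0
      simpa using this
    have hev : ∀ᶠ ε : ℝ in nhds 0, z + (ε : ℂ) * (-(Complex.I * d)) ∈
        convexHull ℝ (Set.range P) := by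
      have := ht.eventually (isOpen_interior.mem_nhds hz)
      exact this.mono fun ε hε => interior_subset hε
    obtain ⟨ε, hε1, hε2⟩ := ((hev.filter_mono nhdsWithin_le_nhds).and
      (self_mem_nhdsWithin (a := (0 : ℝ)) (s := Set.Ioi 0))).exists
    have h3 := hull_subset h hε1 i
    have h4 : ell P i (z + (ε : ℂ) * (-(Complex.I * d))) = ell P i z - ε * ip d d := by
      unfold ell ip cr
      rw [← hd]
      simp only [Complex.add_re, Complex.add_im, Complex.sub_re, Complex.sub_im, Complex.mul_re,
        Complex.mul_im, Complex.neg_re, Complex.neg_im, Complex.ofReal_re, Complex.ofReal_im,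
        Complex.I_re, Complex.I_im]
      ring
    rw [h4, hz1] at h3
    have h5 := mul_pos (Set.mem_Ioi.1 hε2) (hl_ip_pos hd0)
    linarith
  · apply interior_maximal
    · rw [hull_eq h]
      intro z hz i
      exact (hz i).le
    · have : {z : ℂ | ∀ i, 0 < ell P i z} = ⋂ i, {z | 0 < ell P i z} := by
        ext z; simp
      rw [this]
      exact isOpen_iInter_of_finite fun i => isOpen_lt continuous_const (continuous_ell i)

theorem frontier_hull (h : Cvx P) :
    frontier (interior (convexHull ℝ (Set.range P))) = ⋃ i, segment ℝ (P i) (P (i + 1)) := by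
  have hne : (interior (convexHull ℝ (Set.range P))).Nonempty := by
    refine ⟨0, ?_⟩
    rw [interior_hull h]
    intro i
    rw [ell_zero]
    exact h.pos i
  have hcl : closure (interior (convexHull ℝ (Set.range P))) = convexHull ℝ (Set.range P) := by
    rw [(convex_convexHull ℝ _).closure_interior_eq_closure_of_nonempty_interior hne]
    exact isCompact_hull.isClosed.closure_eq
  unfold frontier
  rw [hcl, interior_interior]
  ext z
  constructor
  · rintro ⟨hz1, hz2⟩
    rw [interior_hull h] at hz2
    have hz3 : ∃ i, ¬ 0 < ell P i z := by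
      by_contra hcon
      push Not at hcon
      exact hz2 hcon
    obtain ⟨i, hi⟩ := hz3
    have h0 : ell P i z = 0 := le_antisymm (not_lt.1 hi) (hull_subset h hz1 i)
    exact Set.mem_iUnion.2 ⟨i, hull_face h i hz1 h0⟩
  · intro hz
    obtain ⟨i, hi⟩ := Set.mem_iUnion.1 hz
    refine ⟨?_, ?_⟩
    · exact (convex_convexHull ℝ (Set.range P)).segment_subset
        (subset_convexHull ℝ _ (Set.mem_range_self i))
        (subset_convexHull ℝ _ (Set.mem_range_self (i + 1))) hi
    · rw [interior_hull h]
      intro h1
      have h2 := h1 i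
      obtain ⟨a, b, -, -, hab, rfl⟩ := hi
      rw [ell_comb i hab, ell_self, ell_succ] at h2
      linarith

end hull

section poly

variable {n : ℕ} [NeZero n] {P : ZMod n → ℂ}

omit [NeZero n] in
private theorem hl_two_ne (hn : 3 ≤ n) : (2 : ZMod n) ≠ 0 := by
  intro h
  have h1 : ((2 : ℕ) : ZMod n) = 0 := by exact_mod_cast h
  rw [ZMod.natCast_eq_zero_iff] at h1
  exact absurd (Nat.le_of_dvd (by norm_num) h1) (by omega)

omit [NeZero n] in
private theorem hl_one_ne (hn : 3 ≤ n) : (1 : ZMod n) ≠ 0 := by
  intro h
  apply hl_two_ne hn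
  rw [← one_add_one_eq_two, h, add_zero]

/-- The interior of the hull of a strictly convex polygon is a polygon with these vertices. -/
theorem polyN_of_cvx (hn : 3 ≤ n) (h : Cvx P) :
    PolyN (interior (convexHull ℝ (Set.range P))) P where
  isOpen := isOpen_interior
  bounded := isCompact_hull.isBounded.subset interior_subset
  frontier_eq := frontier_hull h
  corner := by
    intro i
    apply Set.Subset.antisymm
    · rintro z ⟨hz1, hz2⟩
      have h1 : ell P i z = 0 := by
        obtain ⟨a, b, -, -, hab, rfl⟩ := hz2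
        rw [ell_comb i hab, ell_self, ell_succ]
        ring
      obtain ⟨a, b, ha, hb, hab, rfl⟩ := hz1
      rw [ell_comb i hab, ell_self] at h1
      have h2 : 0 < ell P i (P (i - 1)) := by
        apply ell_vertex_pos h
        · intro h0
          apply hl_one_ne hn
          have : i - 1 + 1 = i + 1 := by rw [h0]
          have h3 : i + 0 = i + 1 := by rw [← this]; ring
          exact (add_left_cancel h3).symm
        · intro h0
          apply hl_two_ne hn
          have h3 : i + 0 = i + 2 := by
            calc i + 0 = i - 1 + 1 := by ring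
              _ = i + 1 + 1 := by rw [h0]
              _ = i + 2 := by ring
          exact (add_left_cancel h3).symm
      have h3 : a = 0 := by
        rcases mul_eq_zero.1 (by linarith : a * ell P i (P (i - 1)) = 0) with h4 | h4
        · exact h4
        · exact absurd h4 h2.ne'
      obtain rfl : b = 1 := by linarith
      rw [h3]
      simp
    · rintro z rfl
      exact ⟨right_mem_segment ℝ _ _, left_mem_segment ℝ _ _⟩
  opp := by
    intro i j h1 h2 h3
    rw [Set.disjoint_left]
    intro z hz1 hz2
    have h4 : ell P i z = 0 := by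
      obtain ⟨a, b, -, -, hab, rfl⟩ := hz1
      rw [ell_comb i hab, ell_self, ell_succ]
      ring
    obtain ⟨a, b, ha, hb, hab, rfl⟩ := hz2
    rw [ell_comb i hab] at h4
    have h5 : 0 < ell P i (P j) := ell_vertex_pos h h1 h2
    have h6 : 0 < ell P i (P (j + 1)) :=
      ell_vertex_pos h (Ne.symm h3) (fun h0 => h1 (add_right_cancel h0))
    rcases eq_or_lt_of_le ha with h7 | h7
    · have : b = 1 := by linarith
      rw [← h7, this] at h4
      linarith
    · have := mul_pos h7 h5
      have := mul_nonneg hb h6.le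
      linarith
  angle := by
    intro i
    rw [Pool.Agent.Sq4.collinear_iff_det2]
    have h2 : 0 < ell P i (P (i - 1)) := by
      apply ell_vertex_pos h
      · intro h0
        apply hl_one_ne hn
        have : i - 1 + 1 = i + 1 := by rw [h0]
        have h3 : i + 0 = i + 1 := by rw [← this]; ring
        exact (add_left_cancel h3).symm
      · intro h0
        apply hl_two_ne hn
        have h3 : i + 0 = i + 2 := by
          calc i + 0 = i - 1 + 1 := by ring
            _ = i + 1 + 1 := by rw [h0]
            _ = i + 2 := by ring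
        exact (add_left_cancel h3).symm
    intro h0
    have : det2 (P (i - 1)) (P i) (P (i + 1)) = ell P i (P (i - 1)) := by
      unfold det2 ell cr
      simp only [Complex.sub_re, Complex.sub_im]
      ring
    rw [this] at h0
    exact h2.ne' h0

/-! ### area -/

omit [NeZero n] in
/-- The open cones of the sides are pairwise disjoint. -/
theorem cones_disjoint (hn : 3 ≤ n) (h : Cvx P) {i j : ZMod n} (hij : i ≠ j) {z : ℂ}
    (h1 : 0 < cr (P i) z) (h2 : 0 < cr z (P (i + 1))) (h3 : 0 < cr (P j) z)
    (h4 : 0 < cr z (P (j + 1))) : False := by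
  -- the point of the ray in the side
  have key : ∀ i : ZMod n, 0 < cr (P i) z → 0 < cr z (P (i + 1)) → ∃ t : ℝ, 0 < t ∧
      ell P i ((t : ℂ) * z) = 0 ∧ ∀ k, k ≠ i → 0 < ell P k ((t : ℂ) * z) := by
    intro i h1 h2
    have hi := h.pos i
    set s : ℝ := cr z (P (i + 1)) / cr (P i) (P (i + 1)) + cr (P i) z / cr (P i) (P (i + 1))
      with hs
    have ha : 0 < cr z (P (i + 1)) / cr (P i) (P (i + 1)) := div_pos h2 hi
    have hb : 0 < cr (P i) z / cr (P i) (P (i + 1)) := div_pos h1 hi
    have hs0 : 0 < s := add_pos ha hb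
    have e : ((1 / s : ℝ) : ℂ) * z = (cr z (P (i + 1)) / cr (P i) (P (i + 1)) / s) • P i
        + (cr (P i) z / cr (P i) (P (i + 1)) / s) • P (i + 1) := by
      rw [Complex.real_smul, Complex.real_smul]
      conv_lhs => rw [hl_coord hi z]
      push_cast
      ring
    have hab : cr z (P (i + 1)) / cr (P i) (P (i + 1)) / s
        + cr (P i) z / cr (P i) (P (i + 1)) / s = 1 := by
      rw [← add_div, ← hs, div_self hs0.ne']
    refine ⟨1 / s, by positivity, ?_, ?_⟩
    · rw [e, ell_comb i hab, ell_self, ell_succ]
      ring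
    · intro k hk
      rw [e, ell_comb k hab]
      have ha' : 0 < cr z (P (i + 1)) / cr (P i) (P (i + 1)) / s := div_pos ha hs0
      have hb' : 0 < cr (P i) z / cr (P i) (P (i + 1)) / s := div_pos hb hs0
      by_cases hk1 : i = k + 1
      · -- then `i + 1` is neither `k` nor `k + 1`
        have h5 : 0 < ell P k (P (i + 1)) := by
          apply ell_vertex_pos h
          · intro h0
            apply hl_two_ne hn
            have : k + 2 = k + 0 := by
              calc k + 2 = k + 1 + 1 := by ring
                _ = i + 1 := by rw [hk1]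
                _ = k + 0 := by rw [h0]; ring
            exact add_left_cancel this
          · intro h0
            exact hk (add_right_cancel h0).symm
        have := mul_pos hb' h5
        have := mul_nonneg ha'.le (ell_vertex h k i)
        linarith
      · have h5 : 0 < ell P k (P i) := ell_vertex_pos h (Ne.symm hk) hk1
        have := mul_pos ha' h5
        have := mul_nonneg hb'.le (ell_vertex h k (i + 1))
        linarith
  obtain ⟨t, ht, e1, e2⟩ := key i h1 h2
  obtain ⟨s, hs, e3, e4⟩ := key j h3 h4
  have f1 := e2 j hij.symm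
  have f2 := e4 i hij
  rw [ell_mul] at e1 e3 f1 f2
  have pi := h.pos i
  have pj := h.pos j
  -- `ell_i (t z) = 0 < ell_i (s z)` gives `s < t`, and symmetrically `t < s`
  have g1 : s < t := by
    by_contra hcon
    push Not at hcon
    have m1 : 0 < cr (P i) (P (i + 1)) - ell P i z := by
      by_contra hm
      have := mul_nonpos_of_nonneg_of_nonpos ht.le (not_lt.1 hm)
      linarith
    have := mul_le_mul_of_nonneg_right hcon m1.le
    linarith
  have g2 : t < s := by
    by_contra hcon
    push Not at hcon
    have m1 : 0 < cr (P j) (P (j + 1)) - ell P j z := by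
      by_contra hm
      have := mul_nonpos_of_nonneg_of_nonpos hs.le (not_lt.1 hm)
      linarith
    have := mul_le_mul_of_nonneg_right hcon m1.le
    linarith
  exact lt_asymm g1 g2

omit [NeZero n] in
theorem area_tri (h : Cvx P) (i : ZMod n) :
    volume.real (convexHull ℝ {(0 : ℂ), P i, P (i + 1)}) = cr (P i) (P (i + 1)) / 2 := by
  have hi := h.pos i
  have hd : det2 0 (P i) (P (i + 1)) = cr (P i) (P (i + 1)) := by
    unfold det2 cr
    simp only [Complex.sub_re, Complex.sub_im, Complex.zero_re, Complex.zero_im]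
    ring
  have h1 := area_eq (P := 0) (Q := P i) (R := P (i + 1)) (by rw [hd]; exact hi.ne')
  rw [hd, abs_of_pos hi] at h1
  rw [← h1]
  unfold area tri
  apply measureReal_congr
  have hc : Convex ℝ (convexHull ℝ {(0 : ℂ), P i, P (i + 1)}) := convex_convexHull ℝ _
  exact (interior_ae_eq_of_null_frontier (hc.addHaar_frontier volume)).symm

omit [NeZero n] in
theorem interior_tri_subset (h : Cvx P) (i : ZMod n) {z : ℂ}
    (hz : z ∈ interior (convexHull ℝ {(0 : ℂ), P i, P (i + 1)})) :
    0 < cr (P i) z ∧ 0 < cr z (P (i + 1)) := by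
  have hi := h.pos i
  have hsub : ∀ w ∈ convexHull ℝ {(0 : ℂ), P i, P (i + 1)},
      0 ≤ cr (P i) w ∧ 0 ≤ cr w (P (i + 1)) := by
    intro w hw
    rw [Pool.Agent.Sq4.hull3] at hw
    obtain ⟨a, b, c, ha, hb, hc, habc, rfl⟩ := hw
    have e1 : cr (P i) ((a : ℂ) * 0 + (b : ℂ) * P i + (c : ℂ) * P (i + 1)) =
        c * cr (P i) (P (i + 1)) := by
      unfold cr
      simp only [Complex.add_re, Complex.add_im, Complex.mul_re, Complex.mul_im,
        Complex.ofReal_re, Complex.ofReal_im, Complex.zero_re, Complex.zero_im]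
      ring
    have e2 : cr ((a : ℂ) * 0 + (b : ℂ) * P i + (c : ℂ) * P (i + 1)) (P (i + 1)) =
        b * cr (P i) (P (i + 1)) := by
      unfold cr
      simp only [Complex.add_re, Complex.add_im, Complex.mul_re, Complex.mul_im,
        Complex.ofReal_re, Complex.ofReal_im, Complex.zero_re, Complex.zero_im]
      ring
    rw [e1, e2]
    exact ⟨mul_nonneg hc hi.le, mul_nonneg hb hi.le⟩
  have hev : ∀ w : ℂ, ∃ ε : ℝ, 0 < ε ∧
      z + (ε : ℂ) * w ∈ convexHull ℝ {(0 : ℂ), P i, P (i + 1)} := by
    intro w
    have ht : Filter.Tendsto (fun ε : ℝ => z + (ε : ℂ) * w) (nhds 0) (nhds z) := by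
      have hc : Continuous fun ε : ℝ => z + (ε : ℂ) * w := by fun_prop
      have := hc.tendsto 0
      simpa using this
    have hev : ∀ᶠ ε : ℝ in nhds 0, z + (ε : ℂ) * w ∈
        convexHull ℝ {(0 : ℂ), P i, P (i + 1)} := by
      have := ht.eventually (isOpen_interior.mem_nhds hz)
      exact this.mono fun ε hε => interior_subset hε
    obtain ⟨ε, hε1, hε2⟩ := ((hev.filter_mono nhdsWithin_le_nhds).and
      (self_mem_nhdsWithin (a := (0 : ℝ)) (s := Set.Ioi 0))).exists
    exact ⟨ε, hε2, hε1⟩
  constructor
  · obtain ⟨ε, h1, h2⟩ := hev (-P (i + 1))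
    have h3 := (hsub _ h2).1
    rw [hl_add_right, hl_smul_right, hl_neg_right] at h3
    have := mul_pos h1 hi
    linarith
  · obtain ⟨ε, h1, h2⟩ := hev (-P i)
    have h3 := (hsub _ h2).2
    have e : cr (z + (ε : ℂ) * (-P i)) (P (i + 1)) = cr z (P (i + 1))
        - ε * cr (P i) (P (i + 1)) := by
      unfold cr
      simp only [Complex.add_re, Complex.add_im, Complex.mul_re, Complex.mul_im,
        Complex.ofReal_re, Complex.ofReal_im, Complex.neg_re, Complex.neg_im]
      ring
    rw [e] at h3
    have := mul_pos h1 hi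
    linarith

/-- The triangles of two different sides meet in a null set. -/
theorem tri_aedisjoint (hn : 3 ≤ n) (h : Cvx P) {i j : ZMod n} (hij : i ≠ j) :
    AEDisjoint volume (convexHull ℝ {(0 : ℂ), P i, P (i + 1)})
      (convexHull ℝ {(0 : ℂ), P j, P (j + 1)}) := by
  have hci : Convex ℝ (convexHull ℝ {(0 : ℂ), P i, P (i + 1)}) := convex_convexHull ℝ _
  have hcj : Convex ℝ (convexHull ℝ {(0 : ℂ), P j, P (j + 1)}) := convex_convexHull ℝ _
  have hsub : (convexHull ℝ {(0 : ℂ), P i, P (i + 1)}) ∩ (convexHull ℝ {(0 : ℂ), P j, P (j + 1)})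
      ⊆ frontier (convexHull ℝ {(0 : ℂ), P i, P (i + 1)}) ∪
        frontier (convexHull ℝ {(0 : ℂ), P j, P (j + 1)}) := by
    rintro z ⟨hz1, hz2⟩
    by_cases h1 : z ∈ interior (convexHull ℝ {(0 : ℂ), P i, P (i + 1)})
    · by_cases h2 : z ∈ interior (convexHull ℝ {(0 : ℂ), P j, P (j + 1)})
      · obtain ⟨a1, a2⟩ := interior_tri_subset h i h1
        obtain ⟨b1, b2⟩ := interior_tri_subset h j h2
        exact (cones_disjoint hn h hij a1 a2 b1 b2).elim
      · exact Or.inr ⟨subset_closure hz2, h2⟩
    · exact Or.inl ⟨subset_closure hz1, h1⟩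
  unfold AEDisjoint
  exact measure_mono_null hsub (measure_union_null (hci.addHaar_frontier volume)
    (hcj.addHaar_frontier volume))

/-- The area of the hull. -/
theorem volume_hull (hn : 3 ≤ n) (h : Cvx P) :
    volume.real (convexHull ℝ (Set.range P)) = ∑ i, cr (P i) (P (i + 1)) / 2 := by
  have hcomp : ∀ i, IsCompact (convexHull ℝ {(0 : ℂ), P i, P (i + 1)}) := fun i =>
    (Set.toFinite _).isCompact_convexHull ℝ
  rw [hull_eq_iUnion h, measureReal_def, measure_iUnion₀ (fun i j hij => tri_aedisjoint hn h hij)
    (fun i => (hcomp i).measurableSet.nullMeasurableSet), tsum_fintype,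
    ENNReal.toReal_sum (fun i _ => (hcomp i).measure_lt_top.ne)]
  apply Finset.sum_congr rfl
  intro i _
  exact area_tri h i

theorem volume_interior_hull (hn : 3 ≤ n) (h : Cvx P) :
    volume.real (interior (convexHull ℝ (Set.range P))) = ∑ i, cr (P i) (P (i + 1)) / 2 := by
  rw [← volume_hull hn h]
  apply measureReal_congr
  exact interior_ae_eq_of_null_frontier ((convex_convexHull ℝ _).addHaar_frontier volume)

end poly

end Pool.Agent.NGN
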