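import Pool.Agent.NGN.B.Poly
import Pool.Agent.Stk.Fin
import Pool.Agent.Sq4.Topo2
import Pool.Agent.Sq4.Topo3

/-!
# n = 3: the bridge to the theorem on triangles
-/

set_option autoImplicit false

noncomputable section

namespace Pool.Agent.NGN

open MeasureTheory Pool.Agent.Stk

section generic

/-- A bounded open set whose boundary is that of a compact set `K` with connected complement and
connected interior is the interior of `K`. -/
theorem eq_interior_of_frontier {Ω K : Set ℂ} (hO : IsOpen Ω) (hb : Bornology.IsBounded Ω)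
    (hK : IsCompact K) (hKc : IsPreconnected Kᶜ) (hKi : IsPreconnected (interior K))
    (hfne : (frontier Ω).Nonempty)
    (hfr : frontier Ω = K \ interior K) : Ω = interior K := by
  have h1 : Disjoint (interior K) (frontier Ω) := by
    rw [hfr]
    exact Set.disjoint_sdiff_right
  have h2 : Disjoint Kᶜ (frontier Ω) := by
    rw [hfr]
    rw [Set.disjoint_left]
    intro x hx hx2
    exact hx hx2.1
  have hdisj : Disjoint Ω (frontier Ω) := by
    rw [hO.frontier_eq]
    exact Set.disjoint_sdiff_right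
  have hout : Disjoint Kᶜ Ω := by
    rcases Pool.Agent.Sq4.clopen_cases Ω Kᶜ hO hKc h2 with h3 | h3
    · exact absurd (hb.subset h3) (Pool.Agent.Sq4.compl_not_bounded K hK)
    · exact h3
  have hsub : Ω ⊆ interior K := by
    intro x hx
    by_contra hcon
    have hxK : x ∈ K := by
      by_contra hxK
      exact Set.disjoint_left.1 hout hxK hx
    exact Set.disjoint_left.1 hdisj hx (by rw [hfr]; exact ⟨hxK, hcon⟩)
  rcases Pool.Agent.Sq4.clopen_cases Ω (interior K) hO hKi h1 with h3 | h3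
  · exact Set.Subset.antisymm hsub h3
  · exfalso
    have hemp : Ω = ∅ := by
      rw [Set.eq_empty_iff_forall_notMem]
      intro x hx
      exact Set.disjoint_left.1 h3 (hsub hx) hx
    rw [hemp, frontier_empty] at hfne
    exact Set.not_nonempty_empty hfne

end generic

section triangle

/-! ### barycentric coordinates -/

/-- first barycentric coordinate -/
private def t3_1 (P Q R z : ℂ) : ℝ := det2 z Q R / det2 P Q R
/-- second barycentric coordinate -/
private def t3_2 (P Q R z : ℂ) : ℝ := det2 P z R / det2 P Q R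
/-- third barycentric coordinate -/
private def t3_3 (P Q R z : ℂ) : ℝ := det2 P Q z / det2 P Q R

private theorem t3_sum {P Q R : ℂ} (h : det2 P Q R ≠ 0) (z : ℂ) :
    t3_1 P Q R z + t3_2 P Q R z + t3_3 P Q R z = 1 := by
  unfold t3_1 t3_2 t3_3
  field_simp
  simp only [det2, Complex.sub_re, Complex.sub_im]
  ring

private theorem t3_bary {P Q R : ℂ} (h : det2 P Q R ≠ 0) (z : ℂ) :
    z = (t3_1 P Q R z : ℂ) * P + (t3_2 P Q R z : ℂ) * Q + (t3_3 P Q R z : ℂ) * R := by
  have e1 : det2 P Q R * z.re = det2 z Q R * P.re + det2 P z R * Q.re + det2 P Q z * R.re := by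
    simp only [det2, Complex.sub_re, Complex.sub_im]
    ring
  have e2 : det2 P Q R * z.im = det2 z Q R * P.im + det2 P z R * Q.im + det2 P Q z * R.im := by
    simp only [det2, Complex.sub_re, Complex.sub_im]
    ring
  apply Complex.ext
  · simp only [t3_1, t3_2, t3_3, Complex.add_re, Complex.re_ofReal_mul]
    field_simp
    linarith
  · simp only [t3_1, t3_2, t3_3, Complex.add_im, Complex.im_ofReal_mul]
    field_simp
    linarith

private theorem t3_uniq {P Q R : ℂ} (h : det2 P Q R ≠ 0) {a b c : ℝ} (hs : a + b + c = 1) :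
    t3_1 P Q R ((a : ℂ) * P + (b : ℂ) * Q + (c : ℂ) * R) = a ∧
    t3_2 P Q R ((a : ℂ) * P + (b : ℂ) * Q + (c : ℂ) * R) = b ∧
    t3_3 P Q R ((a : ℂ) * P + (b : ℂ) * Q + (c : ℂ) * R) = c := by
  have ha : a = 1 - b - c := by linarith
  subst ha
  refine ⟨?_, ?_, ?_⟩
  · rw [t3_1, div_eq_iff h]
    simp only [det2, Complex.sub_re, Complex.sub_im, Complex.add_re, Complex.add_im,
      Complex.re_ofReal_mul, Complex.im_ofReal_mul]
    ring
  · rw [t3_2, div_eq_iff h]
    simp only [det2, Complex.sub_re, Complex.sub_im, Complex.add_re, Complex.add_im,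
      Complex.re_ofReal_mul, Complex.im_ofReal_mul]
    ring
  · rw [t3_3, div_eq_iff h]
    simp only [det2, Complex.sub_re, Complex.sub_im, Complex.add_re, Complex.add_im,
      Complex.re_ofReal_mul, Complex.im_ofReal_mul]
    ring

private theorem t3_1_cont (P Q R : ℂ) : Continuous (t3_1 P Q R) := by
  unfold t3_1 det2
  fun_prop

private theorem t3_2_cont (P Q R : ℂ) : Continuous (t3_2 P Q R) := by
  unfold t3_2 det2
  fun_prop

private theorem t3_3_cont (P Q R : ℂ) : Continuous (t3_3 P Q R) := by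
  unfold t3_3 det2
  fun_prop

private theorem t3_mem_hull {P Q R : ℂ} (h : det2 P Q R ≠ 0) (z : ℂ) :
    z ∈ convexHull ℝ ({P, Q, R} : Set ℂ) ↔
      0 ≤ t3_1 P Q R z ∧ 0 ≤ t3_2 P Q R z ∧ 0 ≤ t3_3 P Q R z := by
  rw [Pool.Agent.Sq4.hull3]
  constructor
  · rintro ⟨a, b, c, ha, hb, hc, hs, rfl⟩
    obtain ⟨h1, h2, h3⟩ := t3_uniq h hs
    rw [h1, h2, h3]
    exact ⟨ha, hb, hc⟩
  · rintro ⟨h1, h2, h3⟩
    exact ⟨_, _, _, h1, h2, h3, t3_sum h z, t3_bary h z⟩

private theorem t3_seg {P Q z : ℂ} : z ∈ segment ℝ P Q ↔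
    ∃ a b : ℝ, 0 ≤ a ∧ 0 ≤ b ∧ a + b = 1 ∧ z = (a : ℂ) * P + (b : ℂ) * Q := by
  constructor
  · rintro ⟨a, b, ha, hb, hab, rfl⟩
    exact ⟨a, b, ha, hb, hab, by simp only [Complex.real_smul]⟩
  · rintro ⟨a, b, ha, hb, hab, rfl⟩
    exact ⟨a, b, ha, hb, hab, by simp only [Complex.real_smul]⟩

/-- the side `P Q` -/
private theorem t3_s12 {P Q R : ℂ} (h : det2 P Q R ≠ 0) (z : ℂ) :
    z ∈ segment ℝ P Q ↔ 0 ≤ t3_1 P Q R z ∧ 0 ≤ t3_2 P Q R z ∧ t3_3 P Q R z = 0 := by
  rw [t3_seg]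
  constructor
  · rintro ⟨a, b, ha, hb, hs, rfl⟩
    obtain ⟨h1, h2, h3⟩ := t3_uniq h (a := a) (b := b) (c := 0) (by linarith)
    simp only [Complex.ofReal_zero, zero_mul, add_zero] at h1 h2 h3
    rw [h1, h2, h3]
    exact ⟨ha, hb, rfl⟩
  · rintro ⟨h1, h2, h3⟩
    refine ⟨_, _, h1, h2, ?_, ?_⟩
    · have := t3_sum h z
      linarith
    · have := t3_bary h z
      rw [h3] at this
      simpa using this

/-- the side `Q R` -/
private theorem t3_s23 {P Q R : ℂ} (h : det2 P Q R ≠ 0) (z : ℂ) :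
    z ∈ segment ℝ Q R ↔ t3_1 P Q R z = 0 ∧ 0 ≤ t3_2 P Q R z ∧ 0 ≤ t3_3 P Q R z := by
  rw [t3_seg]
  constructor
  · rintro ⟨a, b, ha, hb, hs, rfl⟩
    obtain ⟨h1, h2, h3⟩ := t3_uniq h (a := 0) (b := a) (c := b) (by linarith)
    simp only [Complex.ofReal_zero, zero_mul, zero_add] at h1 h2 h3
    rw [h1, h2, h3]
    exact ⟨rfl, ha, hb⟩
  · rintro ⟨h1, h2, h3⟩
    refine ⟨_, _, h2, h3, ?_, ?_⟩
    · have := t3_sum h z
      linarith
    · have := t3_bary h z
      rw [h1] at this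
      simpa using this

/-- the side `R P` -/
private theorem t3_s31 {P Q R : ℂ} (h : det2 P Q R ≠ 0) (z : ℂ) :
    z ∈ segment ℝ R P ↔ 0 ≤ t3_1 P Q R z ∧ t3_2 P Q R z = 0 ∧ 0 ≤ t3_3 P Q R z := by
  rw [t3_seg]
  constructor
  · rintro ⟨a, b, ha, hb, hs, rfl⟩
    obtain ⟨h1, h2, h3⟩ := t3_uniq h (a := b) (b := 0) (c := a) (by linarith)
    simp only [Complex.ofReal_zero, zero_mul, add_zero] at h1 h2 h3
    rw [add_comm, h1, h2, h3]
    exact ⟨hb, rfl, ha⟩
  · rintro ⟨h1, h2, h3⟩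
    refine ⟨_, _, h3, h1, ?_, ?_⟩
    · have := t3_sum h z
      linarith
    · have := t3_bary h z
      rw [h2] at this
      simp only [Complex.ofReal_zero, zero_mul, add_zero] at this
      rw [add_comm]
      exact this

/-- moving along `R - P` -/
private theorem t3_move {P Q R : ℂ} (h : det2 P Q R ≠ 0) (z : ℂ) (e : ℝ) :
    t3_1 P Q R (z + (e : ℂ) * (R - P)) = t3_1 P Q R z - e ∧
    t3_3 P Q R (z + (e : ℂ) * (R - P)) = t3_3 P Q R z + e := by
  refine ⟨?_, ?_⟩
  · rw [t3_1, t3_1, div_sub' h]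
    congr 1
    simp only [det2, Complex.sub_re, Complex.sub_im, Complex.add_re, Complex.add_im,
      Complex.re_ofReal_mul, Complex.im_ofReal_mul]
    ring
  · rw [t3_3, t3_3, div_add' _ _ _ h]
    congr 1
    simp only [det2, Complex.sub_re, Complex.sub_im, Complex.add_re, Complex.add_im,
      Complex.re_ofReal_mul, Complex.im_ofReal_mul]
    ring

/-- moving along `Q - P` -/
private theorem t3_move' {P Q R : ℂ} (h : det2 P Q R ≠ 0) (z : ℂ) (e : ℝ) :
    t3_2 P Q R (z + (e : ℂ) * (Q - P)) = t3_2 P Q R z + e := by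
  rw [t3_2, t3_2, div_add' _ _ _ h]
  congr 1
  simp only [det2, Complex.sub_re, Complex.sub_im, Complex.add_re, Complex.add_im,
    Complex.re_ofReal_mul, Complex.im_ofReal_mul]
  ring

/-- A point of the interior stays in the set after small moves. -/
private theorem t3_small {S : Set ℂ} {z : ℂ} (hz : z ∈ interior S) (v : ℂ) :
    ∃ e : ℝ, 0 < e ∧ z + (e : ℂ) * v ∈ S := by
  have hc : Continuous fun e : ℝ => z + (e : ℂ) * v := by fun_prop
  have h0 : z + ((0 : ℝ) : ℂ) * v = z := by simp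
  have h1 : (fun e : ℝ => z + (e : ℂ) * v) ⁻¹' (interior S) ∈ nhds (0 : ℝ) := by
    apply (isOpen_interior.preimage hc).mem_nhds
    simpa using hz
  obtain ⟨e, he, hb⟩ := Metric.mem_nhds_iff.1 h1
  refine ⟨e / 2, by positivity, interior_subset (hb ?_)⟩
  rw [Metric.mem_ball, Real.dist_eq, sub_zero, abs_of_pos (by positivity)]
  linarith

private theorem t3_int {P Q R : ℂ} (h : det2 P Q R ≠ 0) :
    tri P Q R = {z | 0 < t3_1 P Q R z ∧ 0 < t3_2 P Q R z ∧ 0 < t3_3 P Q R z} := by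
  unfold tri
  apply Set.Subset.antisymm
  · intro z hz
    have hz0 := (t3_mem_hull h z).1 (interior_subset hz)
    refine ⟨?_, ?_, ?_⟩
    · apply lt_of_le_of_ne hz0.1
      intro h0
      obtain ⟨e, he, hm⟩ := t3_small hz (R - P)
      have h1 := ((t3_mem_hull h _).1 hm).1
      rw [(t3_move h z e).1, ← h0] at h1
      linarith
    · apply lt_of_le_of_ne hz0.2.1
      intro h0
      obtain ⟨e, he, hm⟩ := t3_small hz (-(Q - P))
      have e1 : z + (e : ℂ) * (-(Q - P)) = z + ((-e : ℝ) : ℂ) * (Q - P) := by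
        push_cast; ring
      rw [e1] at hm
      have h1 := ((t3_mem_hull h _).1 hm).2.1
      rw [t3_move' h z, ← h0] at h1
      linarith
    · apply lt_of_le_of_ne hz0.2.2
      intro h0
      obtain ⟨e, he, hm⟩ := t3_small hz (-(R - P))
      have e1 : z + (e : ℂ) * (-(R - P)) = z + ((-e : ℝ) : ℂ) * (R - P) := by
        push_cast; ring
      rw [e1] at hm
      have h1 := ((t3_mem_hull h _).1 hm).2.2
      rw [(t3_move h z _).2, ← h0] at h1
      linarith
  · apply interior_maximal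
    · rintro z ⟨h1, h2, h3⟩
      exact (t3_mem_hull h z).2 ⟨h1.le, h2.le, h3.le⟩
    · exact (isOpen_lt continuous_const (t3_1_cont P Q R)).inter
        ((isOpen_lt continuous_const (t3_2_cont P Q R)).inter
          (isOpen_lt continuous_const (t3_3_cont P Q R)))

private theorem t3_diff {P Q R : ℂ} (h : det2 P Q R ≠ 0) :
    convexHull ℝ ({P, Q, R} : Set ℂ) \ interior (convexHull ℝ ({P, Q, R} : Set ℂ)) =
      segment ℝ P Q ∪ segment ℝ Q R ∪ segment ℝ R P := by
  have hi := t3_int h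
  unfold tri at hi
  rw [hi]
  ext z
  simp only [Set.mem_sdiff, Set.mem_union, t3_mem_hull h, t3_s12 h, t3_s23 h, t3_s31 h,
    Set.mem_ofPred_eq, not_and_or, not_lt]
  constructor
  · rintro ⟨⟨h1, h2, h3⟩, h4 | h4 | h4⟩
    · exact Or.inl (Or.inr ⟨le_antisymm h4 h1, h2, h3⟩)
    · exact Or.inr ⟨h1, le_antisymm h4 h2, h3⟩
    · exact Or.inl (Or.inl ⟨h1, h2, le_antisymm h4 h3⟩)
  · rintro ((⟨h1, h2, h3⟩ | ⟨h1, h2, h3⟩) | ⟨h1, h2, h3⟩)
    · exact ⟨⟨h1, h2, h3.ge⟩, Or.inr (Or.inr h3.le)⟩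
    · exact ⟨⟨h1.ge, h2, h3⟩, Or.inl h1.le⟩
    · exact ⟨⟨h1, h2.ge, h3⟩, Or.inr (Or.inl h2.le)⟩

end triangle

/-! ### polygons with three vertices -/

private theorem t3_det {Ω : Set ℂ} {P : ZMod 3 → ℂ} (h : PolyN Ω P) :
    det2 (P 0) (P 1) (P 2) ≠ 0 := by
  intro h0
  have h1 := h.angle 1
  have e0 : (1 : ZMod 3) - 1 = 0 := by decide
  have e2 : (1 : ZMod 3) + 1 = 2 := by decide
  rw [e0, e2] at h1
  exact h1 ((Pool.Agent.Sq4.collinear_iff_det2 _ _ _).2 h0)

/-- A polygon with three sides is a triangle. -/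
theorem poly_three {Ω : Set ℂ} {P : ZMod 3 → ℂ} (h : PolyN Ω P) :
    Ω = tri (P 0) (P 1) (P 2) := by
  have hd := t3_det h
  have e1 : (0 : ZMod 3) + 1 = 1 := by decide
  have e2 : (1 : ZMod 3) + 1 = 2 := by decide
  have e3 : (2 : ZMod 3) + 1 = 0 := by decide
  have hfr : frontier Ω = segment ℝ (P 0) (P 1) ∪ segment ℝ (P 1) (P 2) ∪
      segment ℝ (P 2) (P 0) := by
    rw [h.frontier_eq]
    ext z
    rw [Set.mem_iUnion]
    constructor
    · rintro ⟨i, hi⟩
      have hi3 : ∀ j : ZMod 3, j = 0 ∨ j = 1 ∨ j = 2 := by decide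
      rcases hi3 i with rfl | rfl | rfl
      · rw [e1] at hi; exact Or.inl (Or.inl hi)
      · rw [e2] at hi; exact Or.inl (Or.inr hi)
      · rw [e3] at hi; exact Or.inr hi
    · rintro ((hz | hz) | hz)
      · exact ⟨0, by rw [e1]; exact hz⟩
      · exact ⟨1, by rw [e2]; exact hz⟩
      · exact ⟨2, by rw [e3]; exact hz⟩
  have hK : IsCompact (convexHull ℝ ({P 0, P 1, P 2} : Set ℂ)) :=
    (Set.toFinite _).isCompact_convexHull ℝ
  have hcv : Convex ℝ (convexHull ℝ ({P 0, P 1, P 2} : Set ℂ)) := convex_convexHull ℝ _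
  unfold tri
  apply eq_interior_of_frontier h.isOpen h.bounded hK
  · apply Pool.Agent.Sq4.star_compl_preconnected _ hK (P 0)
    intro z hz
    exact hcv.segment_subset (subset_convexHull ℝ _ (by simp)) hz
  · exact hcv.interior.isPreconnected
  · rw [hfr]
    exact ⟨P 0, Or.inl (Or.inl (left_mem_segment ℝ _ _))⟩
  · rw [hfr, t3_diff hd]

private theorem t3_bd (P : ZMod 3 → ℂ) : bdN P = bdInt (P 0) (P 1) (P 2) := by
  funext f
  have e1 : (0 : ZMod 3) + 1 = 1 := by decide
  have e2 : (1 : ZMod 3) + 1 = 2 := by decide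
  have e3 : (2 : ZMod 3) + 1 = 0 := by decide
  have h : bdN P f = segInt (P 0) (P (0 + 1)) f + segInt (P 1) (P (1 + 1)) f +
      segInt (P 2) (P (2 + 1)) f := by
    unfold bdN
    exact Fin.sum_univ_three (fun i : ZMod 3 => segInt (P i) (P (i + 1)) f)
  rw [h, e1, e2, e3]
  rfl

/-- The first eigenvalue of a polygon with three sides. -/
theorem sigN_three (k : WithTop ℕ∞) {Ω : Set ℂ} {P : ZMod 3 → ℂ} (h : PolyN Ω P) :
    sigN k Ω P = sigma1 k (P 0) (P 1) (P 2) := by
  unfold sigN sigma1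
  rw [t3_bd, poly_three h]
  rfl

private theorem t3_aff {P Q R : ℂ} (h : det2 P Q R ≠ 0) : AffineIndependent ℝ ![P, Q, R] := by
  rw [affineIndependent_iff_not_collinear_set]
  intro hc
  exact h ((Pool.Agent.Sq4.collinear_iff_det2 _ _ _).1 hc)

/-! ### the regular polygon -/

private theorem t3_norm (n : ℕ) : ‖omN n‖ = 1 := by
  have h : omN n = Complex.exp (((2 * Real.pi / n : ℝ) : ℂ) * Complex.I) := by
    unfold omN
    congr 1
    push_cast
    ring
  rw [h, Complex.norm_exp_ofReal_mul_I]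

private theorem t3_pow_n {n : ℕ} (hn : n ≠ 0) : omN n ^ n = 1 := by
  have hn' : (n : ℂ) ≠ 0 := by exact_mod_cast hn
  unfold omN
  rw [← Complex.exp_nat_mul, mul_div_cancel₀ _ hn', Complex.exp_two_pi_mul_I]

/-- Rotation of the regular polygon. -/
theorem regP_add_rot {n : ℕ} [NeZero n] (i j : ZMod n) :
    regP n (i + j) = omN n ^ i.val * regP n j := by
  have hmod : ∀ k : ℕ, omN n ^ (k % n) = omN n ^ k := by
    intro k
    conv_rhs => rw [← Nat.div_add_mod k n, pow_add, pow_mul, t3_pow_n (NeZero.ne n), one_pow,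
      one_mul]
  unfold regP
  rw [ZMod.val_add, hmod, pow_add]
  ring

/-- Distances of the vertices of the regular polygon. -/
theorem dist_regP_add {n : ℕ} [NeZero n] (i j l : ZMod n) :
    dist (regP n (i + j)) (regP n (i + l)) = dist (regP n j) (regP n l) := by
  rw [regP_add_rot, regP_add_rot, Complex.dist_eq, Complex.dist_eq, ← mul_sub, norm_mul, norm_pow,
    t3_norm, one_pow, one_mul]

private theorem t3_dist1 : dist (regP 3 0) (regP 3 1) = dist (regP 3 1) (regP 3 2) := by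
  have h := dist_regP_add (n := 3) 1 0 1
  have e1 : (1 : ZMod 3) + 0 = 1 := by decide
  have e2 : (1 : ZMod 3) + 1 = 2 := by decide
  rw [e1, e2] at h
  exact h.symm

private theorem t3_dist2 : dist (regP 3 1) (regP 3 2) = dist (regP 3 2) (regP 3 0) := by
  have h := dist_regP_add (n := 3) 1 1 2
  have e1 : (1 : ZMod 3) + 1 = 2 := by decide
  have e2 : (1 : ZMod 3) + 2 = 0 := by decide
  rw [e1, e2] at h
  exact h.symm

private theorem t3_ne : regP 3 0 ≠ regP 3 1 := by
  intro h0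
  apply t3_det (B_poly (n := 3) le_rfl)
  rw [h0]
  unfold det2
  simp

/-- Triangles: the regular one is the maximiser. -/
theorem three_main {k : ℕ∞} (hk : 1 ≤ k) {Ω : Set ℂ} {P : ZMod 3 → ℂ} (h : PolyN Ω P) :
    sigN k Ω P * Real.sqrt (volume.real Ω) ≤
      sigN k (regO 3) (regP 3) * Real.sqrt (volume.real (regO 3)) := by
  have hk' : (1 : WithTop ℕ∞) ≤ (k : WithTop ℕ∞) := by exact_mod_cast hk
  have hm := (triangles_main (k : WithTop ℕ∞) hk' (regP 3 0) (regP 3 1) (regP 3 2) t3_ne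
    t3_dist1 t3_dist2).2.1
  have hr := B_poly (n := 3) le_rfl
  rw [sigN_three _ h, sigN_three _ hr, poly_three h, poly_three hr]
  exact hm.2 ⟨P 0, P 1, P 2, t3_aff (t3_det h), rfl⟩

/-- Bounds of the maximal value for triangles. -/
theorem three_value {k : ℕ∞} (hk : 1 ≤ k) :
    0.835 < sigN k (regO 3) (regP 3) * Real.sqrt (volume.real (regO 3)) ∧
      sigN k (regO 3) (regP 3) * Real.sqrt (volume.real (regO 3)) < 0.852 := by
  have hk' : (1 : WithTop ℕ∞) ≤ (k : WithTop ℕ∞) := by exact_mod_cast hk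
  have hm := triangles_main (k : WithTop ℕ∞) hk' (regP 3 0) (regP 3 1) (regP 3 2) t3_ne
    t3_dist1 t3_dist2
  have hr := B_poly (n := 3) le_rfl
  rw [sigN_three _ hr, poly_three hr]
  exact hm.2.2.2.2.2.2

end Pool.Agent.NGN
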