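import Pool.Agent.NGN.A.Cases
import Pool.Agent.NGN.A.Sum
import Pool.Agent.NGN.A.Vol
import Pool.Agent.NGN.A.Num
import Pool.Agent.NGN.B.Poly
import Pool.Agent.NGN.B.Main
import Pool.Agent.NGN.C.Main
import Pool.Agent.NGN.C.Pos
import Pool.Agent.NGN.D.H
import Pool.Agent.NGN.D.Main
import Pool.Agent.NGN.D.Const
import Pool.Agent.NGN.Three
import Pool.Agent.NGN.Four

/-!
# n-gons, n >= 5: the main theorem from the interface theorems
-/

set_option autoImplicit false

noncomputable section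

namespace Pool.Agent.NGN

open MeasureTheory Pool.Agent.Stk

theorem segInt_sq_nonneg (P Q : ℂ) (f : ℂ → ℝ) : 0 ≤ segInt P Q (fun z => f z ^ 2) := by
  unfold segInt
  exact mul_nonneg dist_nonneg (intervalIntegral.integral_nonneg zero_le_one fun t _ => sq_nonneg _)

theorem bdN_sq_nonneg {n : ℕ} [NeZero n] (P : ZMod n → ℂ) (f : ℂ → ℝ) :
    0 ≤ bdN P (fun z => f z ^ 2) :=
  Finset.sum_nonneg fun i _ => segInt_sq_nonneg _ _ _

theorem grad2_nonneg (u : ℂ → ℝ) (z : ℂ) : 0 ≤ grad2 u z := by unfold grad2; positivity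

theorem sigN_nonneg (k : WithTop ℕ∞) {n : ℕ} [NeZero n] (Ω : Set ℂ) (P : ZMod n → ℂ) :
    0 ≤ sigN k Ω P := by
  unfold sigN
  apply Real.sInf_nonneg
  rintro x ⟨u, -, -, -, rfl⟩
  exact div_nonneg (integral_nonneg fun z => grad2_nonneg u z) (bdN_sq_nonneg P u)

theorem tauN_pos {n : ℕ} (hn : 3 ≤ n) : 0 < tauN n := by
  unfold tauN
  have hn' : (3 : ℝ) ≤ n := by exact_mod_cast hn
  apply Real.tan_pos_of_pos_of_lt_pi_div_two (by positivity)
  rw [div_lt_div_iff₀ (by linarith) (by norm_num)]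
  nlinarith [Real.pi_pos]

theorem delN_pos (n : ℕ) : 0 < delN n := by unfold delN; positivity

theorem delN_ge (n : ℕ) : 1 ≤ delN n := by unfold delN; nlinarith [sq_nonneg (tauN n)]

/-- From the scalar theorem at `θ = 0`: `∑ h³ λ (1 + κ² + λ² τ²/3) ≥ n δ`. -/
theorem sum_ge {n : ℕ} [NeZero n] {tau : ℝ} (hτ : tau = tauN n) (h0 : 0 < tau) (h1 : tau ≤ 1)
    (hat : n * Real.arctan tau = Real.pi) {h ka la : ZMod n → ℝ} (hh : ∀ i, 0 < h i)
    (hla : ∀ i, 0 < la i) (hs : ∑ i, h i ^ 2 * la i = n)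
    (ho : ∑ i, omS tau (ka i) (la i) ≤ 2 * Real.pi) :
    n * (1 + tau ^ 2 / 3) ≤ ∑ i, h i ^ 3 * la i * (1 + ka i ^ 2 + la i ^ 2 * tau ^ 2 / 3) := by
  have hL : 0 ≤ ∑ i, LS tau (h i) (ka i) (la i) :=
    Finset.sum_nonneg fun i _ => D_H h0 h1 (hh i) (hla i)
  have hc : ((Finset.univ : Finset (ZMod n)).card : ℝ) = n := by
    rw [Finset.card_univ, ZMod.card]
  have e : ∑ i, LS tau (h i) (ka i) (la i) =
      ∑ i, h i ^ 3 * la i * (1 + ka i ^ 2 + la i ^ 2 * tau ^ 2 / 3)
      - 3 * (1 + tau ^ 2 / 3) / 2 * ∑ i, h i ^ 2 * la i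
      + qS tau * ∑ i, omS tau (ka i) (la i) + n * rS tau := by
    unfold LS
    rw [Finset.sum_add_distrib, Finset.sum_add_distrib, Finset.sum_sub_distrib, Finset.sum_const,
      nsmul_eq_mul, hc, Finset.mul_sum, Finset.mul_sum]
    congr 3
    apply Finset.sum_congr rfl
    intro i _
    ring
  have hq : 0 ≤ qS tau := by
    unfold qS
    apply div_nonneg _ (by linarith)
    have := pow_le_one₀ (n := 4) h0.le h1
    linarith
  rw [e, hs] at hL
  have h3 : qS tau * ∑ i, omS tau (ka i) (la i) ≤ qS tau * (2 * Real.pi) :=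
    mul_le_mul_of_nonneg_left ho hq
  have h4 : (n : ℝ) * rS tau = n * ((1 + tau ^ 2 / 3) / 2) - 2 * qS tau * Real.pi := by
    unfold rS
    rw [← hat]
    ring
  rw [h4] at hL
  nlinarith

theorem tauN_le_one {n : ℕ} (hn : 4 ≤ n) : tauN n ≤ 1 := by
  unfold tauN
  have hn' : (4 : ℝ) ≤ n := by exact_mod_cast hn
  rw [← Real.tan_pi_div_four]
  apply Real.strictMonoOn_tan.monotoneOn
  · constructor
    · have : 0 < Real.pi / n := by positivity
      linarith [Real.pi_pos]
    · rw [div_lt_div_iff₀ (by linarith) (by norm_num)]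
      nlinarith [Real.pi_pos]
  · constructor <;> linarith [Real.pi_pos]
  · exact div_le_div_of_nonneg_left Real.pi_pos.le (by norm_num) hn'

theorem arctan_tauN {n : ℕ} (hn : 3 ≤ n) : n * Real.arctan (tauN n) = Real.pi := by
  have hn' : (3 : ℝ) ≤ n := by exact_mod_cast hn
  unfold tauN
  rw [Real.arctan_tan]
  · field_simp
  · have : 0 < Real.pi / n := by positivity
    linarith [Real.pi_pos]
  · rw [div_lt_div_iff₀ (by linarith) (by norm_num)]
    nlinarith [Real.pi_pos]

section geom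

variable {v w : ℂ}

theorem norm_pos_of_cr (h : 0 < cr v w) : 0 < ‖w - v‖ := by
  rw [norm_pos_iff, sub_ne_zero]
  rintro rfl
  unfold cr at h
  linarith [mul_comm w.re w.im]

theorem sH_pos (h : 0 < cr v w) : 0 < sH v w := div_pos h (norm_pos_of_cr h)

theorem sL_pos {tau : ℝ} (ht : 0 < tau) (h : 0 < cr v w) : 0 < sL tau v w := by
  unfold sL
  have := norm_pos_of_cr h
  positivity

theorem sH_sq_sL {tau : ℝ} (ht : 0 < tau) (h : 0 < cr v w) :
    tau * (sH v w ^ 2 * sL tau v w) = cr v w / 2 := by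
  unfold sH sL
  have := norm_pos_of_cr h
  field_simp

end geom

/-- The transplantation argument on a convex polygon, after scaling. -/
theorem convex_core {n : ℕ} [NeZero n] (hn : 3 ≤ n) {k : ℕ∞} {Ω : Set ℂ} {P P' : ZMod n → ℂ}
    (h : PolyN Ω P) (hb : ∀ f : ℂ → ℝ, bdN P' f = bdN P f) (hc : Cvx (fun i => P' i - cen P))
    (hO : Ω ⊆ convexHull ℝ (Set.range P')) {R : ℝ}
    (H : ∀ h' ks ls : ZMod n → ℝ, (∀ i, 0 < h' i) → (∀ i, 0 < ls i) →
      ∑ i, h' i ^ 2 * ls i = n → ∑ i, omS (tauN n) (ks i) (ls i) = 2 * Real.pi →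
      ∃ v : ℂ → ℂ, VV n v ∧ ∃ th : ℝ, EN (tauN n) (datOf (tauN n) v) h' ks ls th ≤
        R * MN (tauN n) (datOf (tauN n) v) h' ks ls th)
    (hR : 0 ≤ R) :
    sigN k Ω P * Real.sqrt (volume.real Ω) ≤ R * Real.sqrt (n * tauN n) := by
  have hτ : 0 < tauN n := tauN_pos hn
  have hnR : (3 : ℝ) ≤ n := by exact_mod_cast hn
  have hsq : 0 ≤ Real.sqrt (n * tauN n) := Real.sqrt_nonneg _
  set p : ZMod n → ℂ := fun i => P' i - cen P with hp
  set hs : ZMod n → ℝ := fun i => sH (p i) (p (i + 1)) with hhs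
  set ks : ZMod n → ℝ := fun i => sK (p i) (p (i + 1)) with hks
  set ls : ZMod n → ℝ := fun i => sL (tauN n) (p i) (p (i + 1)) with hls
  have hhp : ∀ i, 0 < hs i := fun i => sH_pos (hc.pos i)
  have hlp : ∀ i, 0 < ls i := fun i => sL_pos hτ (hc.pos i)
  set S : ℝ := ∑ i, hs i ^ 2 * ls i with hS
  have hSpos : 0 < S := by
    apply Finset.sum_pos (fun i _ => by have := hhp i; have := hlp i; positivity)
    exact ⟨0, Finset.mem_univ _⟩
  set μ : ℝ := Real.sqrt (S / n) with hμ
  have hμpos : 0 < μ := Real.sqrt_pos.2 (by positivity)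
  have hμsq : μ ^ 2 = S / n := Real.sq_sqrt (by positivity)
  set h' : ZMod n → ℝ := fun i => hs i / μ with hh'
  have hh'p : ∀ i, 0 < h' i := fun i => div_pos (hhp i) hμpos
  have hs' : ∑ i, h' i ^ 2 * ls i = n := by
    have : ∑ i, h' i ^ 2 * ls i = S / μ ^ 2 := by
      rw [hS, Finset.sum_div]
      apply Finset.sum_congr rfl
      intro i _
      simp only [hh']
      field_simp
    rw [this, hμsq]
    field_simp
  have ho : ∑ i, omS (tauN n) (ks i) (ls i) = 2 * Real.pi := A_angle hn hc hτ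
  have hvol : volume.real Ω ≤ tauN n * S := by
    have hO' : Ω ⊆ convexHull ℝ (Set.range fun i => p i + cen P) := by
      have : (fun i => p i + cen P) = P' := by
        funext i
        simp [hp]
      rw [this]
      exact hO
    refine (A_vol hn hc hO').trans (le_of_eq ?_)
    rw [hS, Finset.mul_sum]
    apply Finset.sum_congr rfl
    intro i _
    exact (sH_sq_sL hτ (hc.pos i)).symm
  have hsv : Real.sqrt (volume.real Ω) ≤ μ * Real.sqrt (n * tauN n) := by
    have e : μ * Real.sqrt (n * tauN n) = Real.sqrt (tauN n * S) := by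
      rw [hμ, ← Real.sqrt_mul (by positivity)]
      congr 1
      field_simp
    rw [e]
    exact Real.sqrt_le_sqrt hvol
  have hσ := sigN_nonneg k Ω P
  -- it is enough to bound `sigN * μ`
  suffices hsuf : sigN k Ω P * μ ≤ R by
    calc sigN k Ω P * Real.sqrt (volume.real Ω) ≤ sigN k Ω P * (μ * Real.sqrt (n * tauN n)) :=
          mul_le_mul_of_nonneg_left hsv hσ
      _ = sigN k Ω P * μ * Real.sqrt (n * tauN n) := by ring
      _ ≤ _ := mul_le_mul_of_nonneg_right hsuf hsq
  have scE : ∀ (D : EDat) (th : ℝ), EN (tauN n) D hs ks ls th =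
      μ ^ 2 * EN (tauN n) D h' ks ls th := by
    intro D th
    unfold EN
    rw [mul_add]
    congr 1
    · rw [Finset.mul_sum, Finset.mul_sum, Finset.mul_sum]
      apply Finset.sum_congr rfl
      intro i _
      simp only [hh']
      field_simp
    · rw [Finset.mul_sum, Finset.mul_sum, Finset.mul_sum]
      apply Finset.sum_congr rfl
      intro i _
      simp only [hh']
      field_simp
  have scM : ∀ (D : EDat) (th : ℝ), MN (tauN n) D hs ks ls th =
      μ ^ 3 * MN (tauN n) D h' ks ls th := by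
    intro D th
    unfold MN
    rw [mul_add, mul_add]
    congr 1
    · congr 1
      · rw [Finset.mul_sum, Finset.mul_sum, Finset.mul_sum]
        apply Finset.sum_congr rfl
        intro i _
        simp only [hh']
        field_simp
      · rw [Finset.mul_sum, Finset.mul_sum, Finset.mul_sum]
        apply Finset.sum_congr rfl
        intro i _
        simp only [hh']
        field_simp
    · rw [Finset.mul_sum, Finset.mul_sum, Finset.mul_sum]
      apply Finset.sum_congr rfl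
      intro i _
      simp only [hh']
      field_simp
  obtain ⟨v, hv, th, hth⟩ := H h' ks ls hh'p hlp hs' ho
  have hCm := C_main hn (k := k) h hb hc hO hv th
  change sigN k Ω P * MN (tauN n) (datOf (tauN n) v) hs ks ls th ≤
    EN (tauN n) (datOf (tauN n) v) hs ks ls th at hCm
  rw [scE, scM] at hCm
  have hEpos : 0 < EN (tauN n) (datOf (tauN n) v) h' ks ls th := by
    unfold EN
    rw [hs']
    have : 0 ≤ ∑ i, h' i ^ 2 * ls i * ((datOf (tauN n) v).a + (datOf (tauN n) v).b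
        + ks i ^ 2 * (datOf (tauN n) v).ga + ls i ^ 2 * (datOf (tauN n) v).f
        + (1 + ks i ^ 2) ^ 2 * (datOf (tauN n) v).d / ls i ^ 2) := by
      apply Finset.sum_nonneg
      intro i _
      have := C_pos hτ hv.sym.smooth (ka := ks i) (hlp i)
      have := hh'p i
      have := hlp i
      positivity
    positivity
  have hMpos : 0 < MN (tauN n) (datOf (tauN n) v) h' ks ls th := by
    by_contra hneg
    push Not at hneg
    nlinarith
  have h8 : sigN k Ω P * μ * MN (tauN n) (datOf (tauN n) v) h' ks ls th ≤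
      R * MN (tauN n) (datOf (tauN n) v) h' ks ls th := by
    refine le_trans ?_ hth
    have h9 : μ ^ 2 * (sigN k Ω P * μ * MN (tauN n) (datOf (tauN n) v) h' ks ls th) ≤
        μ ^ 2 * EN (tauN n) (datOf (tauN n) v) h' ks ls th := by
      calc _ = sigN k Ω P * (μ ^ 3 * MN (tauN n) (datOf (tauN n) v) h' ks ls th) := by ring
        _ ≤ _ := hCm
    exact le_of_mul_le_mul_left h9 (by positivity)
  exact le_of_mul_le_mul_right h8 hMpos

theorem vv_zero (n : ℕ) : VV n (fun _ => (0 : ℂ)) :=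
  ⟨⟨contDiff_const, fun z => by simp, fun z => by simp⟩, by simp⟩

/-- The bound given by the linear functions, convex case. -/
theorem convex_linear {n : ℕ} [NeZero n] (hn : 4 ≤ n) {k : ℕ∞} {Ω : Set ℂ} {P P' : ZMod n → ℂ}
    (h : PolyN Ω P) (hb : ∀ f : ℂ → ℝ, bdN P' f = bdN P f) (hc : Cvx (fun i => P' i - cen P))
    (hO : Ω ⊆ convexHull ℝ (Set.range P')) :
    sigN k Ω P * Real.sqrt (volume.real Ω) ≤ BB n := by
  have hn3 : 3 ≤ n := by omega
  have hτ : 0 < tauN n := tauN_pos hn3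
  have hδ := delN_pos n
  have e : BB n = 1 / delN n * Real.sqrt (n * tauN n) := by unfold BB; ring
  rw [e]
  apply convex_core hn3 h hb hc hO _ (by positivity)
  intro h' ks ls hh hl hs ho
  refine ⟨fun _ => 0, vv_zero n, 0, ?_⟩
  have hE0 : EN (tauN n) (datOf (tauN n) fun _ => (0 : ℂ)) h' ks ls 0 = 2 * tauN n * n := by
    unfold EN
    rw [hs]
    ring
  have hM0 : 2 * tauN n * (n * delN n) ≤
      MN (tauN n) (datOf (tauN n) fun _ => (0 : ℂ)) h' ks ls 0 := by
    have := sum_ge rfl hτ (tauN_le_one hn) (arctan_tauN hn3) hh hl hs ho.le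
    unfold MN delN
    nlinarith
  rw [hE0]
  calc 2 * tauN n * n = 1 / delN n * (2 * tauN n * (n * delN n)) := by field_simp
    _ ≤ _ := mul_le_mul_of_nonneg_left hM0 (by positivity)

theorem epsN_nonneg {n : ℕ} (hn : 5 ≤ n) : 0 ≤ epsN n := by
  have hnR : (5 : ℝ) ≤ n := by exact_mod_cast hn
  have hτ : 0 < tauN n := tauN_pos (by omega)
  have hτ1 : tauN n ≤ 1 := tauN_le_one (by omega)
  have hδ := delN_pos n
  unfold epsN kapN
  have : 0 < delN n - 5 * tauN n / 11 := by
    have := delN_ge n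
    linarith
  have h7 : 0 ≤ (n : ℝ) ^ 2 - 4 * n + 14 := by nlinarith [sq_nonneg ((n : ℝ) - 2)]
  positivity

/-- The bound given by the linear functions. -/
theorem poly_linear {n : ℕ} [NeZero n] (hn : 5 ≤ n) {k : ℕ∞} {Ω : Set ℂ} {P : ZMod n → ℂ}
    (h : PolyN Ω P) : sigN k Ω P * Real.sqrt (volume.real Ω) ≤ BB n := by
  rcases A_cases hn (k := k) h with hA | ⟨P', hb, hc, hO⟩
  · have h4 := A_num hn
    have h5 : 0 ≤ BB n := div_nonneg (Real.sqrt_nonneg _) (delN_pos n).le
    have h6 := epsN_nonneg hn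
    nlinarith
  · exact convex_linear (by omega) h hb hc hO

/-- Lower bound for the Rayleigh quotients of the regular polygon. -/
theorem ray_lower {n : ℕ} [NeZero n] (hn : 5 ≤ n) {u : ℂ → ℝ} (hu : ContDiff ℝ 1 u)
    (h0 : bdN (regP n) u = 0) (h1 : bdN (regP n) (fun z => u z ^ 2) ≠ 0) :
    (1 - epsN n) / delN n ≤
      (∫ z in regO n, grad2 u z) / bdN (regP n) (fun z => u z ^ 2) := by
  have hτ : 0 < tauN n := tauN_pos (by omega)
  have hδ : 0 < delN n := delN_pos n
  by_cases hR1 : (∫ z in regO n, grad2 u z) / bdN (regP n) (fun z => u z ^ 2) < 1 / delN n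
  · obtain ⟨hR0, v, hv, e1, e2, e3, e4⟩ := B_main hn hu h0 h1 rfl hR1
    obtain ⟨da, db, dd, df, dM1, dM2, -⟩ := C_dat hτ hv.sym.smooth
    exact D_lower hn hR0 hR1 _ da db dd df dM1 dM2 e1 e2 e3 e4
  · refine le_trans ?_ (not_lt.1 hR1)
    apply div_le_div_of_nonneg_right _ hδ.le
    linarith [epsN_nonneg hn]

/-- The main inequality for `n ≥ 5`. -/
theorem main5 {n : ℕ} [NeZero n] (hn : 5 ≤ n) {k : ℕ∞} {Ω : Set ℂ} {P : ZMod n → ℂ}
    (h : PolyN Ω P) {u : ℂ → ℝ} (hu : ContDiff ℝ 1 u)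
    (h0 : bdN (regP n) u = 0) (h1 : bdN (regP n) (fun z => u z ^ 2) ≠ 0) :
    sigN k Ω P * Real.sqrt (volume.real Ω) ≤
      (∫ z in regO n, grad2 u z) / bdN (regP n) (fun z => u z ^ 2) *
        Real.sqrt (n * tauN n) := by
  have hn3 : 3 ≤ n := by omega
  have hτ : 0 < tauN n := tauN_pos hn3
  have hδ : 0 < delN n := delN_pos n
  have hsq : 0 ≤ Real.sqrt (n * tauN n) := Real.sqrt_nonneg _
  have hlow := ray_lower hn hu h0 h1
  set R : ℝ := (∫ z in regO n, grad2 u z) / bdN (regP n) (fun z => u z ^ 2) with hR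
  by_cases hR1 : R < 1 / delN n
  · rcases A_cases hn (k := k) h with hA | ⟨P', hb, hc, hO⟩
    · -- nonconvex
      refine hA.trans ((A_num hn).trans ?_)
      calc (1 - epsN n) * BB n = (1 - epsN n) / delN n * Real.sqrt (n * tauN n) := by
            unfold BB; ring
        _ ≤ _ := mul_le_mul_of_nonneg_right hlow hsq
    · -- convex
      obtain ⟨hR0, v, hv, e1, e2, e3, e4⟩ := B_main hn hu h0 h1 hR hR1
      obtain ⟨da, db, dd, df, dM1, dM2, dga⟩ := C_dat hτ hv.sym.smooth
      apply convex_core hn3 h hb hc hO _ hR0.le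
      intro h' ks ls hh hl hs ho
      obtain ⟨th, hth⟩ := D_main hn hR0 hR1 _ da db dd df dM1 dM2 dga e1 e2 e3 e4 hh hl hs ho
      exact ⟨v, hv, th, hth⟩
  · refine (poly_linear hn h).trans ?_
    calc BB n = 1 / delN n * Real.sqrt (n * tauN n) := by unfold BB; ring
      _ ≤ _ := mul_le_mul_of_nonneg_right (not_lt.1 hR1) hsq

end Pool.Agent.NGN
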