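import Mathlib

/-!
# Mollification of Lipschitz functions on the plane

MP_b1ddb4_an, project NGN, part C.  A Lipschitz function `v` on the plane is approximated by the
smooth functions `moll v j`: uniformly, and the gradients converge almost everywhere and stay
bounded by the Lipschitz constant.
-/

set_option autoImplicit false

noncomputable section

namespace Pool.Agent.NGN

open MeasureTheory Filter Topology Metric
open scoped NNReal Convolution ContDiff

/-- A bump function of radius `1 / (j + 1)`. -/
def bmp (j : ℕ) : ContDiffBump (0 : ℂ) where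
  rIn := 1 / (2 * ((j : ℝ) + 1))
  rOut := 1 / ((j : ℝ) + 1)
  rIn_pos := by positivity
  rIn_lt_rOut := by
    have h : (0 : ℝ) < (j : ℝ) + 1 := by positivity
    apply one_div_lt_one_div_of_lt h
    linarith

/-- Mollification of `v`. -/
def moll (v : ℂ → ℝ) (j : ℕ) : ℂ → ℝ :=
  ((bmp j).normed volume ⋆[ContinuousLinearMap.lsmul ℝ ℝ, volume] v)

variable {v : ℂ → ℝ} {L : ℝ≥0}

theorem moll_contDiff (hv : LipschitzWith L v) (j : ℕ) (n : ℕ∞) : ContDiff ℝ n (moll v j) := by
  unfold moll
  apply HasCompactSupport.contDiff_convolution_left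
  · exact (bmp j).hasCompactSupport_normed
  · exact (bmp j).contDiff_normed
  · exact hv.continuous.locallyIntegrable

theorem moll_near (hv : LipschitzWith L v) (j : ℕ) (z : ℂ) :
    dist (moll v j z) (v z) ≤ L / ((j : ℝ) + 1) := by
  apply ContDiffBump.dist_normed_convolution_le
  · exact hv.continuous.aestronglyMeasurable
  · intro x hx
    have h1 := hv.dist_le_mul x z
    have h2 : dist x z ≤ 1 / ((j : ℝ) + 1) := (mem_ball.1 hx).le
    calc dist (v x) (v z) ≤ L * dist x z := h1
      _ ≤ L * (1 / ((j : ℝ) + 1)) := by gcongr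
      _ = L / ((j : ℝ) + 1) := by ring

theorem moll_tendsto (hv : LipschitzWith L v) (z : ℂ) :
    Tendsto (fun j => moll v j z) atTop (𝓝 (v z)) := by
  rw [tendsto_iff_dist_tendsto_zero]
  refine squeeze_zero (fun _ => dist_nonneg) (fun j => moll_near hv j z) ?_
  have := tendsto_one_div_add_atTop_nhds_zero_nat (𝕜 := ℝ)
  have h2 := this.const_mul (L : ℝ)
  simpa [div_eq_mul_inv] using h2

theorem integrable_normed (j : ℕ) : Integrable ((bmp j).normed volume) (volume : Measure ℂ) :=
  (bmp j).integrable_normed

theorem moll_hasLine (hv : LipschitzWith L v) (j : ℕ) (z e : ℂ) :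
    HasDerivAt (fun s : ℝ => moll v j (z + s • e))
      (∫ t, (bmp j).normed volume t * fderiv ℝ v (z - t) e) 0 := by
  have hdiff : ∀ᵐ t : ℂ, DifferentiableAt ℝ v (z - t) := by
    have h1 : ∀ᵐ t : ℂ, DifferentiableAt ℝ v t := hv.ae_differentiableAt
    have h2 : Measure.QuasiMeasurePreserving (fun t : ℂ => z - t) volume volume :=
      (Measure.measurePreserving_sub_left volume z).quasiMeasurePreserving
    exact h2.ae h1
  have hc : Continuous v := hv.continuous
  have key := hasDerivAt_integral_of_dominated_loc_of_lip (μ := (volume : Measure ℂ)) (𝕜 := ℝ)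
    (F := fun (s : ℝ) (t : ℂ) => (bmp j).normed volume t * v (z + s • e - t))
    (F' := fun t => (bmp j).normed volume t * fderiv ℝ v (z - t) e)
    (x₀ := 0) (s := ball 0 1) (bound := fun t => (bmp j).normed volume t * (L * ‖e‖))
    (ball_mem_nhds 0 one_pos) ?_ ?_ ?_ ?_ ?_ ?_
  · have h2 := key.2
    refine h2.congr_of_eventuallyEq ?_
    refine Eventually.of_forall fun s => ?_
    simp [moll, convolution_def]
  · refine Eventually.of_forall fun s => ?_
    apply Continuous.aestronglyMeasurable
    exact (bmp j).continuous_normed.mul (hc.comp (by fun_prop))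
  · simp only [zero_smul, add_zero]
    have h1 : Continuous fun t : ℂ => (bmp j).normed volume t * v (z - t) :=
      (bmp j).continuous_normed.mul (hc.comp (by fun_prop))
    apply h1.integrable_of_hasCompactSupport
    exact ((bmp j).hasCompactSupport_normed).mul_right
  · apply AEStronglyMeasurable.mul
    · exact (bmp j).continuous_normed.aestronglyMeasurable
    · have h1 : Measurable fun t : ℂ => fderiv ℝ v (z - t) e := by
        have := (measurable_fderiv_apply_const ℝ v e)
        exact this.comp (by fun_prop)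
      exact h1.aestronglyMeasurable
  · refine Eventually.of_forall fun t => ?_
    have h0 : 0 ≤ (bmp j).normed volume t := (bmp j).nonneg_normed t
    rw [lipschitzOnWith_iff_dist_le_mul]
    intro s _ s' _
    rw [Real.dist_eq, ← mul_sub, abs_mul, abs_of_nonneg h0]
    have h1 := hv.dist_le_mul (z + s • e - t) (z + s' • e - t)
    rw [Real.dist_eq] at h1
    have h2 : dist (z + s • e - t) (z + s' • e - t) = |s - s'| * ‖e‖ := by
      rw [dist_eq_norm]
      have : z + s • e - t - (z + s' • e - t) = (s - s') • e := by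
        rw [sub_smul]; ring
      rw [this, norm_smul, Real.norm_eq_abs]
    rw [h2] at h1
    have h3 : ((Real.nnabs ((bmp j).normed volume t * (L * ‖e‖)) : ℝ≥0) : ℝ) =
        (bmp j).normed volume t * (L * ‖e‖) := by
      rw [Real.coe_nnabs, abs_of_nonneg]
      positivity
    rw [h3, Real.dist_eq]
    calc (bmp j).normed volume t * |v (z + s • e - t) - v (z + s' • e - t)|
        ≤ (bmp j).normed volume t * (L * (|s - s'| * ‖e‖)) := by gcongr
      _ = _ := by ring
  · exact (integrable_normed j).mul_const _
  · filter_upwards [hdiff] with t ht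
    apply HasDerivAt.const_mul
    have h1 : HasFDerivAt v (fderiv ℝ v (z - t)) (z + (0 : ℝ) • e - t) := by
      simpa using ht.hasFDerivAt
    have h2 : HasDerivAt (fun s : ℝ => z + s • e - t) e 0 := by
      have := ((hasDerivAt_id (0 : ℝ)).smul_const e)
      simpa using (this.const_add z).sub_const t
    exact h1.comp_hasDerivAt 0 h2

theorem moll_fderiv (hv : LipschitzWith L v) (j : ℕ) (z : ℂ) :
    fderiv ℝ (moll v j) z =
      ((bmp j).normed volume ⋆[ContinuousLinearMap.lsmul ℝ ℝ, volume] (fderiv ℝ v)) z := by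
  have hint : Integrable (fun t => (bmp j).normed volume t • fderiv ℝ v (z - t)) := by
    apply Integrable.mono' ((integrable_normed j).mul_const (L : ℝ))
    · refine AEStronglyMeasurable.fun_smul (f := fun t => (bmp j).normed volume t) ?_ ?_
      · exact (bmp j).continuous_normed.aestronglyMeasurable
      · have h1 : Measurable fun t : ℂ => fderiv ℝ v (z - t) :=
          (measurable_fderiv ℝ v).comp (by fun_prop)
        exact h1.aestronglyMeasurable
    · refine Eventually.of_forall fun t => ?_
      have h0 : 0 ≤ (bmp j).normed volume t := (bmp j).nonneg_normed t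
      rw [norm_smul, Real.norm_eq_abs, abs_of_nonneg h0]
      gcongr
      exact norm_fderiv_le_of_lipschitz ℝ hv
  refine ContinuousLinearMap.ext fun e => ?_
  have hd : DifferentiableAt ℝ (moll v j) z :=
    ((moll_contDiff hv j 1).differentiable (by norm_num)).differentiableAt
  have h1 := moll_hasLine hv j z e
  have h2 : HasDerivAt (fun s : ℝ => moll v j (z + s • e)) (fderiv ℝ (moll v j) z e) 0 := by
    have h3 : HasFDerivAt (moll v j) (fderiv ℝ (moll v j) z) (z + (0 : ℝ) • e) := by
      simpa using hd.hasFDerivAt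
    have h4 : HasDerivAt (fun s : ℝ => z + s • e) e 0 := by
      have := ((hasDerivAt_id (0 : ℝ)).smul_const e)
      simpa using this.const_add z
    exact h3.comp_hasDerivAt 0 h4
  rw [h2.unique h1, convolution_def, ContinuousLinearMap.integral_apply]
  · simp
  · simpa using hint

theorem moll_norm_fderiv (hv : LipschitzWith L v) (j : ℕ) (z : ℂ) :
    ‖fderiv ℝ (moll v j) z‖ ≤ L := by
  rw [moll_fderiv hv, convolution_def]
  calc ‖∫ t, (ContinuousLinearMap.lsmul ℝ ℝ ((bmp j).normed volume t)) (fderiv ℝ v (z - t))‖
      ≤ ∫ t, (bmp j).normed volume t * L := by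
        apply norm_integral_le_of_norm_le ((integrable_normed j).mul_const (L : ℝ))
        refine Eventually.of_forall fun t => ?_
        have h0 : 0 ≤ (bmp j).normed volume t := (bmp j).nonneg_normed t
        simp only [ContinuousLinearMap.lsmul_apply]
        rw [norm_smul, Real.norm_eq_abs, abs_of_nonneg h0]
        gcongr
        exact norm_fderiv_le_of_lipschitz ℝ hv
    _ = L := by
        rw [integral_mul_const, (bmp j).integral_normed, one_mul]

theorem moll_ae (hv : LipschitzWith L v) :
    ∀ᵐ z : ℂ, Tendsto (fun j => fderiv ℝ (moll v j) z) atTop (𝓝 (fderiv ℝ v z)) := by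
  have hloc : LocallyIntegrable (fderiv ℝ v) (volume : Measure ℂ) := by
    rw [locallyIntegrable_iff]
    intro K hK
    refine Measure.integrableOn_of_bounded (M := L) hK.measure_lt_top.ne
      (measurable_fderiv ℝ v).aestronglyMeasurable ?_
    exact Eventually.of_forall fun z => norm_fderiv_le_of_lipschitz ℝ hv
  have h := ContDiffBump.ae_convolution_tendsto_right_of_locallyIntegrable
    (φ := bmp) (l := atTop) (K := 2) (μ := (volume : Measure ℂ)) (g := fderiv ℝ v) ?_ ?_ hloc
  · filter_upwards [h] with z hz
    refine hz.congr fun j => ?_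
    rw [moll_fderiv hv]
  · exact tendsto_one_div_add_atTop_nhds_zero_nat (𝕜 := ℝ)
  · refine Eventually.of_forall fun j => ?_
    simp only [bmp]
    have h : (0 : ℝ) < (j : ℝ) + 1 := by positivity
    field_simp
    norm_num

/-- Energy density. -/
def dens (u : ℂ → ℝ) (z : ℂ) : ℝ := (fderiv ℝ u z 1) ^ 2 + (fderiv ℝ u z Complex.I) ^ 2

theorem dens_nonneg (u : ℂ → ℝ) (z : ℂ) : 0 ≤ dens u z := by unfold dens; positivity

theorem dens_le {u : ℂ → ℝ} {z : ℂ} {M : ℝ} (h : ‖fderiv ℝ u z‖ ≤ M) : dens u z ≤ 2 * M ^ 2 := by
  have hM : 0 ≤ M := le_trans (norm_nonneg _) h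
  have h1 : |fderiv ℝ u z 1| ≤ M := by
    have := (fderiv ℝ u z).le_opNorm 1
    rw [Real.norm_eq_abs] at this
    simp only [norm_one, mul_one] at this
    linarith
  have h2 : |fderiv ℝ u z Complex.I| ≤ M := by
    have := (fderiv ℝ u z).le_opNorm Complex.I
    rw [Real.norm_eq_abs] at this
    simp only [Complex.norm_I, mul_one] at this
    linarith
  have h3 := sq_le_sq' (abs_le.1 h1).1 (abs_le.1 h1).2
  have h4 := sq_le_sq' (abs_le.1 h2).1 (abs_le.1 h2).2
  unfold dens
  linarith

theorem dens_measurable (u : ℂ → ℝ) : Measurable (dens u) := by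
  unfold dens
  exact ((measurable_fderiv_apply_const ℝ u 1).pow_const 2).add
    ((measurable_fderiv_apply_const ℝ u Complex.I).pow_const 2)

/-- Convergence of the energies. -/
theorem energy_tendsto (hv : LipschitzWith L v) {Ω : Set ℂ} (hΩ : volume Ω ≠ ⊤) :
    Tendsto (fun j => ∫ z in Ω, dens (moll v j) z) atTop (𝓝 (∫ z in Ω, dens v z)) := by
  apply tendsto_integral_of_dominated_convergence (fun _ => 2 * (L : ℝ) ^ 2)
  · exact fun j => (dens_measurable _).aestronglyMeasurable
  · exact integrableOn_const hΩ
  · intro j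
    refine Eventually.of_forall fun z => ?_
    rw [Real.norm_eq_abs, abs_of_nonneg (dens_nonneg _ _)]
    exact dens_le (moll_norm_fderiv hv j z)
  · apply ae_restrict_of_ae
    filter_upwards [moll_ae hv] with z hz
    unfold dens
    have h1 : Tendsto (fun j => fderiv ℝ (moll v j) z 1) atTop (𝓝 (fderiv ℝ v z 1)) :=
      ((ContinuousLinearMap.apply ℝ ℝ (1 : ℂ)).continuous.tendsto _).comp hz
    have h2 : Tendsto (fun j => fderiv ℝ (moll v j) z Complex.I) atTop
        (𝓝 (fderiv ℝ v z Complex.I)) :=
      ((ContinuousLinearMap.apply ℝ ℝ (Complex.I : ℂ)).continuous.tendsto _).comp hz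
    exact (h1.pow 2).add (h2.pow 2)

end Pool.Agent.NGN
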