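import Pool.Agent.NGN.Four

/-!
# n = 3 and n = 4: the regular polygons are the only maximisers
-/

set_option autoImplicit false

noncomputable section

namespace Pool.Agent.NGN

open MeasureTheory Pool.Agent.Stk

/-- The shift of the indices preserves all distances of the vertices, i.e. the polygon is
regular. -/
def IsReg {n : ℕ} (P : ZMod n → ℂ) : Prop := ∀ i j, dist (P (i + 1)) (P (j + 1)) = dist (P i) (P j)

theorem isReg_regP (n : ℕ) [NeZero n] : IsReg (regP n) := by
  intro i j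
  have h := dist_regP_add (n := n) 1 i j
  rw [add_comm (1 : ZMod n) i, add_comm (1 : ZMod n) j] at h
  exact h

private theorem s3_cases (i : ZMod 3) : i = 0 ∨ i = 1 ∨ i = 2 := by
  have h : ∀ j : ZMod 3, j = 0 ∨ j = 1 ∨ j = 2 := by decide
  exact h i

private theorem s4_cases (i : ZMod 4) : i = 0 ∨ i = 1 ∨ i = 2 ∨ i = 3 := by
  have h : ∀ j : ZMod 4, j = 0 ∨ j = 1 ∨ j = 2 ∨ j = 3 := by decide
  exact h i

theorem isReg_three (P : ZMod 3 → ℂ) :
    IsReg P ↔ dist (P 0) (P 1) = dist (P 1) (P 2) ∧ dist (P 1) (P 2) = dist (P 2) (P 0) := by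
  have e1 : (0 : ZMod 3) + 1 = 1 := by decide
  have e2 : (1 : ZMod 3) + 1 = 2 := by decide
  have e3 : (2 : ZMod 3) + 1 = 0 := by decide
  constructor
  · intro h
    have h1 := h 0 1
    have h2 := h 1 2
    rw [e1, e2] at h1
    rw [e2, e3] at h2
    exact ⟨h1.symm, h2.symm⟩
  · rintro ⟨h1, h2⟩ i j
    have g1 : dist (P 1) (P 0) = dist (P 0) (P 1) := dist_comm _ _
    have g2 : dist (P 2) (P 1) = dist (P 1) (P 2) := dist_comm _ _
    have g3 : dist (P 0) (P 2) = dist (P 2) (P 0) := dist_comm _ _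
    rcases s3_cases i with rfl | rfl | rfl <;> rcases s3_cases j with rfl | rfl | rfl <;>
      simp only [e1, e2, e3, dist_self] <;> linarith

/-- Among the triangles only the equilateral ones are maximisers. -/
theorem three_uniq {k : ℕ∞} (hk : 1 ≤ k) {Ω : Set ℂ} {P : ZMod 3 → ℂ} (h : PolyN Ω P) :
    sigN k Ω P * Real.sqrt (volume.real Ω) =
      sigN k (regO 3) (regP 3) * Real.sqrt (volume.real (regO 3)) ↔ IsReg P := by
  have hk' : (1 : WithTop ℕ∞) ≤ (k : WithTop ℕ∞) := by exact_mod_cast hk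
  have hr := B_poly (n := 3) le_rfl
  have hR := (isReg_three _).1 (isReg_regP 3)
  have hne : regP 3 0 ≠ regP 3 1 := by
    intro h0
    have h1 := hr.angle 1
    have e1 : (1 : ZMod 3) - 1 = 0 := by decide
    rw [e1, h0] at h1
    apply h1
    simp [collinear_pair]
  have hm := triangles_main (k : WithTop ℕ∞) hk' (regP 3 0) (regP 3 1) (regP 3 2) hne hR.1 hR.2
  have hA : AffineIndependent ℝ ![P 0, P 1, P 2] := by
    rw [affineIndependent_iff_not_collinear_set]
    have h1 := h.angle 1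
    have e1 : (1 : ZMod 3) - 1 = 0 := by decide
    have e2 : (1 : ZMod 3) + 1 = 2 := by decide
    rw [e1, e2] at h1
    exact h1
  rw [sigN_three _ h, sigN_three _ hr, poly_three h, poly_three hr, isReg_three]
  exact hm.2.2.2.1 (P 0) (P 1) (P 2) hA

theorem isReg_four (P : ZMod 4 → ℂ) :
    IsReg P ↔ Pool.Agent.Sq4.IsSq (P 0) (P 1) (P 2) (P 3) := by
  have e1 : (0 : ZMod 4) + 1 = 1 := by decide
  have e2 : (1 : ZMod 4) + 1 = 2 := by decide
  have e3 : (2 : ZMod 4) + 1 = 3 := by decide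
  have e4 : (3 : ZMod 4) + 1 = 0 := by decide
  unfold Pool.Agent.Sq4.IsSq
  constructor
  · intro h
    have h1 := h 0 1
    have h2 := h 1 2
    have h3 := h 2 3
    have h4 := h 0 2
    rw [e1, e2] at h1
    rw [e2, e3] at h2
    rw [e3, e4] at h3
    rw [e1, e3] at h4
    exact ⟨h1.symm, h2.symm, h3.symm, h4.symm⟩
  · rintro ⟨h1, h2, h3, h4⟩ i j
    have g1 : dist (P 1) (P 0) = dist (P 0) (P 1) := dist_comm _ _
    have g2 : dist (P 2) (P 1) = dist (P 1) (P 2) := dist_comm _ _
    have g3 : dist (P 3) (P 2) = dist (P 2) (P 3) := dist_comm _ _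
    have g4 : dist (P 0) (P 3) = dist (P 3) (P 0) := dist_comm _ _
    have g5 : dist (P 2) (P 0) = dist (P 0) (P 2) := dist_comm _ _
    have g6 : dist (P 3) (P 1) = dist (P 1) (P 3) := dist_comm _ _
    rcases s4_cases i with rfl | rfl | rfl | rfl <;>
      rcases s4_cases j with rfl | rfl | rfl | rfl <;>
      simp only [e1, e2, e3, e4, dist_self] <;> linarith

/-- Among the quadrilaterals only the squares are maximisers. -/
theorem four_uniq {k : ℕ∞} (hk : 1 ≤ k) {Ω : Set ℂ} {P : ZMod 4 → ℂ} (h : PolyN Ω P) :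
    sigN k Ω P * Real.sqrt (volume.real Ω) =
      sigN k (regO 4) (regP 4) * Real.sqrt (volume.real (regO 4)) ↔ IsReg P := by
  have hr := poly4_of_polyN (B_poly (n := 4) (by norm_num))
  have hq := (isReg_four _).1 (isReg_regP 4)
  have e := (Pool.Agent.Sq4.poly_main hk hr).2.2.2.2 hq
  rw [sigN_four, sigN_four, e, isReg_four]
  exact (Pool.Agent.Sq4.poly_main hk (poly4_of_polyN h)).2.2.2

end Pool.Agent.NGN
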